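import Pool.Agent.Helper84.MT.Seg

/-! TANGENTS IN THE COORDINATES OF A FRAME, elementary part: triangular charts `x_j = P_j(U) + U_j`, `U = d y`. -/

set_option autoImplicit false

namespace Pool.Agent.Helper59.OKD

open Finset Filter Topology Matrix MvPolynomial
open Pool.Agent.Helper84.MT (eval_le_of_coeff totalDegree_pderiv_le support_card_le)

noncomputable section

/-! ### polynomials -/

theorem hasDerivAt_eval {M : ℕ} (p : MvPolynomial (Fin M) ℝ) {g : ℝ → Fin M → ℝ} {g' : Fin M → ℝ} {τ : ℝ}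
    (h : ∀ i, HasDerivAt (fun s => g s i) (g' i) τ) :
    HasDerivAt (fun s => eval (g s) p) (∑ i, eval (g τ) (pderiv i p) * g' i) τ := by
  classical
  induction p using MvPolynomial.induction_on with
  | C a =>
    simp only [eval_C, pderiv_C, map_zero, zero_mul, Finset.sum_const_zero]
    exact hasDerivAt_const τ a
  | add p q hp hq =>
    simp only [map_add, add_mul, Finset.sum_add_distrib]
    exact hp.add hq
  | mul_X p j hp =>
    have h1 := hp.mul (h j)
    have e1 : ∑ i, eval (g τ) (pderiv i (p * X j)) * g' i =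
        (∑ i, eval (g τ) (pderiv i p) * g' i) * g τ j + eval (g τ) p * g' j := by
      have e2 : ∀ i, eval (g τ) (pderiv i (p * X j)) * g' i =
          eval (g τ) (pderiv i p) * g' i * g τ j + if i = j then eval (g τ) p * g' i else 0 := by
        intro i
        rw [pderiv_mul, map_add, map_mul, map_mul, eval_X]
        by_cases hij : i = j
        · subst hij
          rw [pderiv_X_self, map_one, if_pos rfl]
          ring
        · rw [pderiv_X_of_ne (fun h => hij h.symm), map_zero, if_neg hij]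
          ring
      simp_rw [e2]
      rw [Finset.sum_add_distrib, Finset.sum_ite_eq' Finset.univ j, if_pos (Finset.mem_univ _), ← Finset.sum_mul]
    rw [e1]
    refine h1.congr_of_eventuallyEq ?_
    exact Filter.Eventually.of_forall fun s => by simp

theorem abs_prod_sub {ι : Type} (s : Finset ι) (e : ι → ℕ) (u v : ι → ℝ) {V ε : ℝ} (hV : 1 ≤ V)
    (hu : ∀ i, |u i| ≤ V) (hv : ∀ i, |v i| ≤ V) (h : ∀ i, e i ≠ 0 → |u i - v i| ≤ ε) :
    |∏ i ∈ s, u i ^ e i - ∏ i ∈ s, v i ^ e i| ≤ ((∑ i ∈ s, e i : ℕ) : ℝ) * V ^ (∑ i ∈ s, e i) * |ε| := by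
  classical
  have hpow : ∀ (w : ι → ℝ), (∀ i, |w i| ≤ V) → ∀ t : Finset ι, |∏ i ∈ t, w i ^ e i| ≤ V ^ (∑ i ∈ t, e i) := by
    intro w hw t
    rw [Finset.abs_prod, ← Finset.prod_pow_eq_pow_sum]
    refine Finset.prod_le_prod (fun _ _ => abs_nonneg _) fun i _ => ?_
    rw [abs_pow]
    exact pow_le_pow_left₀ (abs_nonneg _) (hw i) _
  induction s using Finset.induction_on with
  | empty => simp
  | insert i s hi ih =>
    rw [Finset.prod_insert hi, Finset.prod_insert hi, Finset.sum_insert hi]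
    have h1 : u i ^ e i * ∏ j ∈ s, u j ^ e j - v i ^ e i * ∏ j ∈ s, v j ^ e j =
        (u i ^ e i - v i ^ e i) * ∏ j ∈ s, u j ^ e j + v i ^ e i * (∏ j ∈ s, u j ^ e j - ∏ j ∈ s, v j ^ e j) := by ring
    rw [h1]
    refine (abs_add_le _ _).trans ?_
    rw [abs_mul, abs_mul]
    have h2 : |u i ^ e i - v i ^ e i| ≤ e i * V ^ e i * |ε| := by
      by_cases h0 : e i = 0
      · rw [h0]
        simp
      refine (abs_pow_sub_pow_le _ _ _).trans ?_
      have h3 : max |u i| |v i| ^ (e i - 1) ≤ V ^ e i :=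
        (pow_le_pow_left₀ (le_max_of_le_left (abs_nonneg _)) (max_le (hu i) (hv i)) _).trans
          (pow_le_pow_right₀ hV (Nat.sub_le _ _))
      calc |u i - v i| * e i * max |u i| |v i| ^ (e i - 1) ≤ |ε| * e i * V ^ e i :=
            mul_le_mul (mul_le_mul_of_nonneg_right ((h i h0).trans (le_abs_self _)) (Nat.cast_nonneg _)) h3
              (pow_nonneg (le_max_of_le_left (abs_nonneg _)) _) (by positivity)
        _ = _ := by ring
    have h4 : |v i ^ e i| ≤ V ^ e i := by
      rw [abs_pow]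
      exact pow_le_pow_left₀ (abs_nonneg _) (hv i) _
    have h5 := hpow u hu s
    calc |u i ^ e i - v i ^ e i| * |∏ j ∈ s, u j ^ e j| + |v i ^ e i| * |∏ j ∈ s, u j ^ e j - ∏ j ∈ s, v j ^ e j|
        ≤ (e i * V ^ e i * |ε|) * V ^ (∑ j ∈ s, e j) + V ^ e i * (((∑ j ∈ s, e j : ℕ) : ℝ) * V ^ (∑ j ∈ s, e j) * |ε|) :=
          add_le_add (mul_le_mul h2 h5 (abs_nonneg _) (by positivity)) (mul_le_mul h4 ih (abs_nonneg _) (by positivity))
      _ = _ := by
          rw [pow_add]
          push_cast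
          ring

/-- Lipschitz bound for a polynomial, in its variables -/
theorem eval_lip {M D : ℕ} (f : MvPolynomial (Fin M) ℝ) (hf : f.totalDegree ≤ D) {H : ℝ} (hH : 0 ≤ H)
    (h2 : ∀ a, |f.coeff a| ≤ H) {V ε : ℝ} (hV : 1 ≤ V) (hε : 0 ≤ ε) (u v : Fin M → ℝ) (hu : ∀ i, |u i| ≤ V)
    (hv : ∀ i, |v i| ≤ V) (h : ∀ i ∈ f.vars, |u i - v i| ≤ ε) :
    |eval u f - eval v f| ≤ ((D : ℝ) + 1) ^ M * (H * (D * V ^ D)) * ε := by
  classical
  rw [MvPolynomial.eval_eq', MvPolynomial.eval_eq', ← Finset.sum_sub_distrib]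
  refine (Finset.abs_sum_le_sum_abs _ _).trans ?_
  have h3 : ∀ a ∈ f.support, |f.coeff a * ∏ i, u i ^ a i - f.coeff a * ∏ i, v i ^ a i| ≤ H * (D * V ^ D) * ε := by
    intro a ha
    rw [← mul_sub, abs_mul]
    have h5 := abs_prod_sub Finset.univ (fun i => a i) u v (ε := ε) hV hu hv (fun i hi => h i (by
      rw [MvPolynomial.mem_vars_iff_mem_support]
      exact ⟨a, ha, Finsupp.mem_support_iff.mpr hi⟩))
    rw [abs_of_nonneg hε] at h5
    have h6 : ∑ i, a i ≤ D := by
      have h7 : a.sum (fun _ n => n) ≤ f.totalDegree := MvPolynomial.le_totalDegree ha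
      have h8 : a.sum (fun _ n => n) = ∑ i, a i := Finsupp.sum_fintype _ _ (fun _ => rfl)
      omega
    have h7 : ((∑ i, a i : ℕ) : ℝ) * V ^ (∑ i, a i) * ε ≤ D * V ^ D * ε := by
      refine mul_le_mul_of_nonneg_right (mul_le_mul (by exact_mod_cast h6) (pow_le_pow_right₀ hV h6) (by positivity)
        (Nat.cast_nonneg _)) hε
    calc |f.coeff a| * _ ≤ H * (D * V ^ D * ε) := mul_le_mul (h2 a) (h5.trans h7) (abs_nonneg _) hH
      _ = _ := by ring
  refine (Finset.sum_le_sum h3).trans ?_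
  rw [Finset.sum_const, nsmul_eq_mul]
  have h4 : (f.support.card : ℝ) ≤ ((D : ℝ) + 1) ^ M := by exact_mod_cast support_card_le f hf
  calc (f.support.card : ℝ) * (H * (D * V ^ D) * ε) ≤ ((D : ℝ) + 1) ^ M * (H * (D * V ^ D) * ε) :=
        mul_le_mul_of_nonneg_right h4 (by positivity)
    _ = _ := by ring

/-- coefficients of derivatives -/
theorem coeff_pderiv_le {M D : ℕ} (f : MvPolynomial (Fin M) ℝ) (hf : f.totalDegree ≤ D) {H : ℝ}
    (h2 : ∀ a, |f.coeff a| ≤ H) (i : Fin M) (a : Fin M →₀ ℕ) : |(pderiv i f).coeff a| ≤ D * H := by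
  classical
  have hH : 0 ≤ H := (abs_nonneg _).trans (h2 0)
  rw [coeff_pderiv, abs_mul]
  by_cases h0 : a + Finsupp.single i 1 ∈ f.support
  · have h7 : (a + Finsupp.single i 1).sum (fun _ n => n) ≤ f.totalDegree := MvPolynomial.le_totalDegree h0
    have h8 : (a + Finsupp.single i 1).sum (fun _ n => n) = ∑ j, (a + Finsupp.single i 1 : Fin M →₀ ℕ) j :=
      Finsupp.sum_fintype _ _ (fun _ => rfl)
    have h9 : (a + Finsupp.single i 1 : Fin M →₀ ℕ) i ≤ ∑ j, (a + Finsupp.single i 1 : Fin M →₀ ℕ) j :=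
      Finset.single_le_sum (fun _ _ => Nat.zero_le _) (Finset.mem_univ i)
    have h10 : (a + Finsupp.single i 1 : Fin M →₀ ℕ) i = a i + 1 := by
      rw [Finsupp.add_apply, Finsupp.single_eq_same]
    have h11 : a i + 1 ≤ D := by omega
    have h12 : |((a i : ℝ) + 1)| ≤ D := by
      rw [abs_of_nonneg (by positivity)]
      exact_mod_cast h11
    calc |f.coeff (a + Finsupp.single i 1)| * |((a i : ℝ) + 1)| ≤ H * D := mul_le_mul (h2 _) h12 (abs_nonneg _) hH
      _ = D * H := mul_comm _ _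
  · rw [MvPolynomial.notMem_support_iff.mp h0, abs_zero, zero_mul]
    positivity

theorem pderiv_vars {M : ℕ} (f : MvPolynomial (Fin M) ℝ) (i : Fin M) : (pderiv i f).vars ⊆ f.vars := by
  classical
  intro j hj
  rw [MvPolynomial.mem_vars_iff_mem_support] at hj ⊢
  obtain ⟨a, ha, hja⟩ := hj
  rw [MvPolynomial.mem_support_iff, coeff_pderiv] at ha
  refine ⟨a + Finsupp.single i 1, MvPolynomial.mem_support_iff.mpr (left_ne_zero_of_mul ha), ?_⟩
  rw [Finsupp.mem_support_iff] at hja ⊢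
  rw [Finsupp.add_apply]
  omega

/-! ### triangular systems of inequalities -/

theorem tri_le {M : ℕ} {x : Fin M → ℝ} {A ε : ℝ} (hA : 0 ≤ A) (hε : 0 ≤ ε)
    (h : ∀ (j : Fin M) (y : ℝ), 0 ≤ y → (∀ i, i < j → |x i| ≤ y) → |x j| ≤ A * y + ε) :
    ∀ j, |x j| ≤ (A + 1) ^ M * ε := by
  have key : ∀ n : ℕ, ∀ j : Fin M, j.val ≤ n → |x j| ≤ (A + 1) ^ n * ε := by
    intro n
    induction n with
    | zero =>
      intro j hj
      have h1 := h j 0 le_rfl (fun i hi => absurd (Fin.lt_def.mp hi) (by omega))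
      rw [pow_zero, one_mul]
      linarith
    | succ n ih =>
      intro j hj
      have h0 : 0 ≤ (A + 1) ^ n * ε := by positivity
      have h1 := h j ((A + 1) ^ n * ε) h0 (fun i hi => ih i (by have := Fin.lt_def.mp hi; omega))
      have h2 : ε ≤ (A + 1) ^ n * ε := le_mul_of_one_le_left hε (one_le_pow₀ (by linarith))
      calc |x j| ≤ A * ((A + 1) ^ n * ε) + ε := h1
        _ ≤ A * ((A + 1) ^ n * ε) + (A + 1) ^ n * ε := by linarith
        _ = (A + 1) ^ (n + 1) * ε := by ring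
  exact fun j => key M j j.2.le

/-! ### triangular charts -/

variable {M : ℕ}

/-- the differential of the triangular chart `P + U` in the coordinates of the box `d` -/
def tdf (P : Fin M → MvPolynomial (Fin M) ℝ) (d U : Fin M → ℝ) : Matrix (Fin M) (Fin M) ℝ :=
  Matrix.of fun j i => (eval U (pderiv i (P j)) + if i = j then 1 else 0) * d i

variable {P : Fin M → MvPolynomial (Fin M) ℝ}

theorem pd_zero (tri : ∀ j, ∀ i ∈ (P j).vars, i < j) {j i : Fin M} (h : j ≤ i) : pderiv i (P j) = 0 :=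
  pderiv_eq_zero_of_notMem_vars fun hi => absurd (tri j i hi) (not_lt.mpr h)

theorem tdf_det (tri : ∀ j, ∀ i ∈ (P j).vars, i < j) (d U : Fin M → ℝ) : (tdf P d U).det = ∏ j, d j := by
  rw [Matrix.det_of_isLowerTriangular]
  · refine Finset.prod_congr rfl fun j _ => ?_
    show (eval U (pderiv j (P j)) + if j = j then 1 else 0) * d j = d j
    rw [pd_zero tri le_rfl, map_zero, if_pos rfl, zero_add, one_mul]
  · intro j i hji
    have h1 : j < i := OrderDual.toDual_lt_toDual.mp hji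
    show (eval U (pderiv i (P j)) + if i = j then 1 else 0) * d i = 0
    rw [pd_zero tri h1.le, map_zero, if_neg h1.ne', add_zero, zero_mul]

theorem tdf_inv (tri : ∀ j, ∀ i ∈ (P j).vars, i < j) {d : Fin M → ℝ} (hd : ∀ j, 0 < d j) (U : Fin M → ℝ) :
    tdf P d U * (tdf P d U)⁻¹ = 1 ∧ (tdf P d U)⁻¹ * tdf P d U = 1 := by
  have h1 : IsUnit (tdf P d U).det := by
    rw [tdf_det tri]
    exact (Finset.prod_pos fun j _ => hd j).ne'.isUnit
  exact ⟨Matrix.mul_nonsing_inv _ h1, Matrix.nonsing_inv_mul _ h1⟩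

/-- DERIVATIVE OF THE RELATION between the charts -/
theorem tan_rel {e : ℕ} {f g : (Fin e → ℝ) → Fin M → ℝ} {o : Fin e → ℝ} {c : ℝ} {d : Fin M → ℝ}
    (hf : ∀ y j, f (fun m => o m + c * y m) j = eval (fun i => d i * g y i) (P j) + d j * g y j)
    (y : Fin e → ℝ) (a : Fin e) (g' : Fin M → ℝ)
    (hg : ∀ j, HasDerivAt (fun τ => g (Function.update y a τ) j) (g' j) (y a)) (j : Fin M) :
    c * deriv (fun τ => f (Function.update (fun m => o m + c * y m) a τ) j) (o a + c * y a) =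
      (tdf P d (fun i => d i * g y i) *ᵥ g') j := by
  classical
  set φ : ℝ → ℝ := fun τ => f (Function.update (fun m => o m + c * y m) a τ) j with hφ
  have e1 : (fun τ => φ (o a + c * τ)) = fun τ => eval (fun i => d i * g (Function.update y a τ) i) (P j) +
      d j * g (Function.update y a τ) j := by
    funext τ
    rw [← hf]
    show f _ j = f _ j
    congr 1
    funext m
    by_cases hm : m = a
    · subst hm
      rw [Function.update_self, Function.update_self]
    · rw [Function.update_of_ne hm, Function.update_of_ne hm]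
  have h1 : deriv (fun τ => φ (o a + c * τ)) (y a) = c * deriv φ (o a + c * y a) := by
    have h2 := deriv_comp_mul_left c (fun x => φ (o a + x)) (y a)
    rw [deriv_comp_const_add, smul_eq_mul] at h2
    exact h2
  have h3 : HasDerivAt (fun τ => eval (fun i => d i * g (Function.update y a τ) i) (P j) +
      d j * g (Function.update y a τ) j) ((tdf P d (fun i => d i * g y i) *ᵥ g') j) (y a) := by
    have h4 := hasDerivAt_eval (P j) (g := fun τ i => d i * g (Function.update y a τ) i) (g' := fun i => d i * g' i)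
      (τ := y a) (fun i => (hg i).const_mul (d i))
    have h5 := h4.add ((hg j).const_mul (d j))
    refine h5.congr_deriv ?_
    show _ = ∑ i, ((eval (fun i => d i * g y i) (pderiv i (P j)) + if i = j then 1 else 0) * d i) * g' i
    rw [Function.update_eq_self]
    have e2 : ∀ i, ((eval (fun i => d i * g y i) (pderiv i (P j)) + if i = j then 1 else 0) * d i) * g' i =
        eval (fun i => d i * g y i) (pderiv i (P j)) * (d i * g' i) + if i = j then d i * g' i else 0 := by
      intro i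
      by_cases hij : i = j
      · rw [if_pos hij, if_pos hij]
        ring
      · rw [if_neg hij, if_neg hij]
        ring
    simp_rw [e2]
    rw [Finset.sum_add_distrib, Finset.sum_ite_eq' Finset.univ j, if_pos (Finset.mem_univ _)]
  rw [← h1, e1]
  exact h3.deriv

/-- Lipschitz constants -/
def lc (M D : ℕ) (K V : ℝ) : ℝ := ((D : ℝ) + 1) ^ M * (K * (D * V ^ D))

theorem lc_nonneg {M D : ℕ} {K V : ℝ} (hK : 0 ≤ K) (hV : 1 ≤ V) : 0 ≤ lc M D K V := by
  unfold lc
  have : 0 ≤ V := by linarith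
  positivity

/-- the coordinates of the box of two points with nearby values -/
theorem box_close (tri : ∀ j, ∀ i ∈ (P j).vars, i < j) {D : ℕ} (hD : ∀ j, (P j).totalDegree ≤ D) {K : ℝ} (hK0 : 0 ≤ K)
    (hK : ∀ j a, |(P j).coeff a| ≤ K) {V ε : ℝ} (hV : 1 ≤ V) (hε : 0 ≤ ε) {U U' : Fin M → ℝ} (hU : ∀ i, |U i| ≤ V)
    (hU' : ∀ i, |U' i| ≤ V) (h : ∀ j, |(eval U (P j) + U j) - (eval U' (P j) + U' j)| ≤ ε) :
    ∀ j, |U j - U' j| ≤ (lc M D K V + 1) ^ M * ε := by
  refine tri_le (x := fun j => U j - U' j) (lc_nonneg hK0 hV) hε ?_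
  intro j y hy hi
  have h1 := eval_lip (P j) (hD j) hK0 (hK j) hV hy U U' hU hU' (fun i hi' => hi i (tri j i hi'))
  have h2 := h j
  have e1 : U j - U' j = ((eval U (P j) + U j) - (eval U' (P j) + U' j)) - (eval U (P j) - eval U' (P j)) := by ring
  show |U j - U' j| ≤ _
  rw [e1]
  refine (abs_sub _ _).trans ?_
  have e2 : lc M D K V * y = ((D : ℝ) + 1) ^ M * (K * (D * V ^ D)) * y := rfl
  rw [e2]
  linarith

/-- bound of the entries of the differential -/
theorem pd_le {D : ℕ} (hD : ∀ j, (P j).totalDegree ≤ D) {K : ℝ} (hK0 : 0 ≤ K) (hK : ∀ j a, |(P j).coeff a| ≤ K)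
    {V : ℝ} (hV : 1 ≤ V) {U : Fin M → ℝ} (hU : ∀ i, |U i| ≤ V) (i j : Fin M) :
    |eval U (pderiv i (P j))| ≤ lc M D K V := by
  have h1 := eval_le_of_coeff (pderiv i (P j)) ((totalDegree_pderiv_le i (P j)).trans (hD j)) (D * K) V
    (by positivity) hV (fun a => coeff_pderiv_le (P j) (hD j) (hK j) i a) U hU
  refine h1.trans (le_of_eq ?_)
  unfold lc
  ring

/-- COMPARISON OF THE TANGENTS -/
theorem tan_close (tri : ∀ j, ∀ i ∈ (P j).vars, i < j) {D : ℕ} (hD : ∀ j, (P j).totalDegree ≤ D) {K : ℝ} (hK0 : 0 ≤ K)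
    (hK : ∀ j a, |(P j).coeff a| ≤ K) {V ε : ℝ} (hV : 1 ≤ V) (hε : 0 ≤ ε) {U U' : Fin M → ℝ} (hU : ∀ i, |U i| ≤ V)
    (hU' : ∀ i, |U' i| ≤ V) (h : ∀ j, |U j - U' j| ≤ ε) {d : Fin M → ℝ} (hd0 : ∀ j, 0 < d j) (hd1 : ∀ j, d j ≤ 1)
    {c : ℝ} {t t' : Fin M → ℝ} {K' : ℝ} (hK'0 : 0 ≤ K') (hK' : ∀ j, |t' j| ≤ K') (ht : ∀ j, c * t j = (tdf P d U *ᵥ t') j)
    (j : Fin M) : |((c • (tdf P d U')⁻¹) *ᵥ t) j - t' j| ≤
      (M * lc M D K V + 1) ^ M * (M * (lc M D (D * K) V * ε * K')) / d j := by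
  set z : Fin M → ℝ := (c • (tdf P d U')⁻¹) *ᵥ t - t' with hz
  have hl0 := lc_nonneg (M := M) (D := D) hK0 hV
  have hl1 := lc_nonneg (M := M) (D := D) (K := D * K) (by positivity) hV
  have h1 : tdf P d U' *ᵥ z = (tdf P d U - tdf P d U') *ᵥ t' := by
    rw [hz, Matrix.mulVec_sub, Matrix.mulVec_mulVec, Matrix.mul_smul, (tdf_inv tri hd0 U').1, Matrix.smul_mulVec,
      Matrix.one_mulVec, Matrix.sub_mulVec]
    congr 1
    funext j
    exact ht j
  have key : ∀ j, |d j * z j| ≤ (M * lc M D K V + 1) ^ M * (M * (lc M D (D * K) V * ε * K')) := by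
    refine tri_le (x := fun j => d j * z j) (by positivity) (by positivity) ?_
    intro j y hy hi
    have h2 : (tdf P d U' *ᵥ z) j = ∑ i, eval U' (pderiv i (P j)) * (d i * z i) + d j * z j := by
      show ∑ i, ((eval U' (pderiv i (P j)) + if i = j then 1 else 0) * d i) * z i = _
      have e2 : ∀ i, ((eval U' (pderiv i (P j)) + if i = j then 1 else 0) * d i) * z i =
          eval U' (pderiv i (P j)) * (d i * z i) + if i = j then d i * z i else 0 := by
        intro i
        by_cases hij : i = j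
        · rw [if_pos hij, if_pos hij]
          ring
        · rw [if_neg hij, if_neg hij]
          ring
      simp_rw [e2]
      rw [Finset.sum_add_distrib, Finset.sum_ite_eq' Finset.univ j, if_pos (Finset.mem_univ _)]
    have h3 : ((tdf P d U - tdf P d U') *ᵥ t') j =
        ∑ i, (eval U (pderiv i (P j)) - eval U' (pderiv i (P j))) * (d i * t' i) := by
      show ∑ i, (((eval U (pderiv i (P j)) + if i = j then 1 else 0) * d i) -
        ((eval U' (pderiv i (P j)) + if i = j then 1 else 0) * d i)) * t' i = _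
      refine Finset.sum_congr rfl fun i _ => ?_
      ring
    have h4 := congrFun h1 j
    rw [h2, h3] at h4
    have h5 : |∑ i, eval U' (pderiv i (P j)) * (d i * z i)| ≤ M * (lc M D K V * y) := by
      refine (Finset.abs_sum_le_sum_abs _ _).trans ?_
      refine (Finset.sum_le_card_nsmul _ _ (lc M D K V * y) fun i _ => ?_).trans (le_of_eq ?_)
      · by_cases hij : i < j
        · rw [abs_mul]
          exact mul_le_mul (pd_le hD hK0 hK hV hU' i j) (hi i hij) (abs_nonneg _) hl0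
        · rw [pd_zero tri (not_lt.mp hij), map_zero, zero_mul, abs_zero]
          positivity
      · rw [nsmul_eq_mul, Finset.card_univ, Fintype.card_fin]
    have h6 : |∑ i, (eval U (pderiv i (P j)) - eval U' (pderiv i (P j))) * (d i * t' i)| ≤
        M * (lc M D (D * K) V * ε * K') := by
      refine (Finset.abs_sum_le_sum_abs _ _).trans ?_
      refine (Finset.sum_le_card_nsmul _ _ (lc M D (D * K) V * ε * K') fun i _ => ?_).trans (le_of_eq ?_)
      · rw [abs_mul]
        have h7 : |eval U (pderiv i (P j)) - eval U' (pderiv i (P j))| ≤ lc M D (D * K) V * ε :=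
          eval_lip (pderiv i (P j)) ((totalDegree_pderiv_le i (P j)).trans (hD j)) (by positivity)
            (fun a => coeff_pderiv_le (P j) (hD j) (hK j) i a) hV hε U U' hU hU' (fun i _ => h i)
        have h8 : |d i * t' i| ≤ K' := by
          rw [abs_mul, abs_of_pos (hd0 i)]
          calc d i * |t' i| ≤ 1 * K' := mul_le_mul (hd1 i) (hK' i) (abs_nonneg _) zero_le_one
            _ = K' := one_mul _
        exact mul_le_mul h7 h8 (abs_nonneg _) (by positivity)
      · rw [nsmul_eq_mul, Finset.card_univ, Fintype.card_fin]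
    have e3 : d j * z j = (∑ i, (eval U (pderiv i (P j)) - eval U' (pderiv i (P j))) * (d i * t' i)) -
        ∑ i, eval U' (pderiv i (P j)) * (d i * z i) := by linarith
    show |d j * z j| ≤ _
    rw [e3]
    refine (abs_sub _ _).trans ?_
    rw [mul_assoc (M : ℝ)]
    linarith
  have h2 := key j
  rw [abs_mul, abs_of_pos (hd0 j)] at h2
  rw [le_div_iff₀ (hd0 j), mul_comm]
  exact h2

/-- the new coordinates do not contract functionals -/
theorem tdf_low (tri : ∀ j, ∀ i ∈ (P j).vars, i < j) {D : ℕ} (hD : ∀ j, (P j).totalDegree ≤ D) {K : ℝ} (hK0 : 0 ≤ K)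
    (hK : ∀ j a, |(P j).coeff a| ≤ K) {V : ℝ} (hV : 1 ≤ V) {U : Fin M → ℝ} (hU : ∀ i, |U i| ≤ V)
    {d : Fin M → ℝ} (hd0 : ∀ j, 0 < d j) {c : ℝ} (hc : 0 < c) (hcd : ∀ j, d j ≤ c) (b : Fin M → ℝ) :
    b ⬝ᵥ b ≤ (M * (lc M D K V + 1)) ^ 2 *
      ((b ᵥ* (c • (tdf P d U)⁻¹)) ⬝ᵥ (b ᵥ* (c • (tdf P d U)⁻¹))) := by
  set u : Fin M → ℝ := b ᵥ* (c • (tdf P d U)⁻¹) with hu
  have hl0 := lc_nonneg (M := M) (D := D) hK0 hV
  have h1 : b = u ᵥ* (c⁻¹ • tdf P d U) := by
    rw [hu, Matrix.vecMul_vecMul, Matrix.smul_mul, Matrix.mul_smul, (tdf_inv tri hd0 U).2, smul_smul,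
      mul_inv_cancel₀ hc.ne', one_smul, Matrix.vecMul_one]
  have h2 : ∀ i j, |(c⁻¹ • tdf P d U) i j| ≤ lc M D K V + 1 := by
    intro i j
    show |c⁻¹ * ((eval U (pderiv j (P i)) + if j = i then 1 else 0) * d j)| ≤ _
    have h3 : |eval U (pderiv j (P i)) + if j = i then 1 else 0| ≤ lc M D K V + 1 := by
      refine (abs_add_le _ _).trans (add_le_add (pd_le hD hK0 hK hV hU j i) ?_)
      by_cases hij : j = i
      · rw [if_pos hij, abs_one]
      · rw [if_neg hij, abs_zero]
        exact zero_le_one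
    rw [abs_mul, abs_mul, abs_of_pos (inv_pos.mpr hc), abs_of_pos (hd0 j)]
    have h4 : c⁻¹ * d j ≤ 1 := by
      rw [inv_mul_le_iff₀ hc, mul_one]
      exact hcd j
    calc c⁻¹ * (|eval U (pderiv j (P i)) + if j = i then 1 else 0| * d j)
        = |eval U (pderiv j (P i)) + if j = i then 1 else 0| * (c⁻¹ * d j) := by ring
      _ ≤ (lc M D K V + 1) * 1 := mul_le_mul h3 h4 (mul_nonneg (inv_pos.mpr hc).le (hd0 j).le) (by positivity)
      _ = _ := mul_one _
  have h3 : ∀ j, b j * b j ≤ (u ⬝ᵥ u) * (M * (lc M D K V + 1) ^ 2) := by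
    intro j
    have e1 : b j = ∑ i, u i * (c⁻¹ • tdf P d U) i j := congrFun h1 j
    rw [← sq, e1]
    refine (Finset.sum_mul_sq_le_sq_mul_sq _ _ _).trans ?_
    have e2 : ∑ i, u i ^ 2 = u ⬝ᵥ u := Finset.sum_congr rfl fun i _ => sq _
    rw [e2]
    refine mul_le_mul_of_nonneg_left ?_ (Finset.sum_nonneg fun i _ => mul_self_nonneg (u i))
    refine (Finset.sum_le_card_nsmul _ _ ((lc M D K V + 1) ^ 2) fun i _ => ?_).trans (le_of_eq ?_)
    · rw [← sq_abs]
      exact pow_le_pow_left₀ (abs_nonneg _) (h2 i j) 2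
    · rw [nsmul_eq_mul, Finset.card_univ, Fintype.card_fin]
  have h4 : b ⬝ᵥ b ≤ M * ((u ⬝ᵥ u) * (M * (lc M D K V + 1) ^ 2)) := by
    refine (Finset.sum_le_card_nsmul _ _ _ fun j _ => h3 j).trans (le_of_eq ?_)
    rw [nsmul_eq_mul, Finset.card_univ, Fintype.card_fin]
  refine h4.trans (le_of_eq ?_)
  ring

end

end Pool.Agent.Helper59.OKD
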