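import Pool.Agent.Helper37.DK2.Lin

/-! CLOSURE of the classes given by tangents, finite part: spaces over a label, in new coordinates. -/

set_option autoImplicit false

namespace Pool.Agent.Helper59.OKD

open Finset Filter Topology Matrix Pool.Agent.Helper69.RK Pool.Agent.Helper31.EC Pool.Agent.Helper31.EC.Sp
open Pool.Agent.Helper40.EL Pool.Agent.Helper89.LX Pool.Agent.Helper3.LF Pool.Agent.Helper84.MT
open Pool.Agent.Helper49.MD Pool.Agent.Helper36.AM Pool.Agent.Helper37.DK2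

noncomputable section

/-- ORTHONORMAL REDUCTION of an admissible family of functionals -/
theorem exists_onr {γ β : Type} [Fintype γ] [Fintype β] (ν : Matrix γ β ℝ) (hν : Adm ν) :
    ∃ R : Matrix γ γ ℝ, (∀ b : γ → ℝ, (b ᵥ* (R * ν)) ⬝ᵥ (b ᵥ* (R * ν)) = b ⬝ᵥ b) ∧ ∀ c d, |R c d| ≤ 1 := by
  classical
  have hG : (ν * ν.transpose).IsHermitian := by
    unfold Matrix.IsHermitian
    rw [Matrix.conjTranspose_eq_transpose_of_trivial, Matrix.transpose_mul, Matrix.transpose_transpose]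
  set u : γ → γ → ℝ := fun c => ⇑(hG.eigenvectorBasis c) with hu
  set lam : γ → ℝ := hG.eigenvalues with hlam
  have h1 : ∀ c, (ν * ν.transpose) *ᵥ u c = lam c • u c := fun c => hG.mulVec_eigenvectorBasis c
  have h2 : ∀ c d, u c ⬝ᵥ u d = if c = d then 1 else 0 := by
    intro c d
    have h3 := (orthonormal_iff_ite.mp hG.eigenvectorBasis.orthonormal) c d
    rw [EuclideanSpace.inner_eq_star_dotProduct] at h3
    rw [dotProduct_comm]
    exact h3
  have h3 : ∀ c d, (u c ᵥ* ν) ⬝ᵥ (u d ᵥ* ν) = if c = d then lam c else 0 := by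
    intro c d
    have e1 : (u c ᵥ* ν) ⬝ᵥ (u d ᵥ* ν) = u c ⬝ᵥ ((ν * ν.transpose) *ᵥ u d) := by
      rw [← Matrix.mulVec_mulVec, Matrix.mulVec_transpose, Matrix.dotProduct_mulVec]
    rw [e1, h1, dotProduct_smul, h2]
    by_cases hcd : c = d
    · rw [if_pos hcd, if_pos hcd, hcd, smul_eq_mul, mul_one]
    · rw [if_neg hcd, if_neg hcd, smul_zero]
  have h4 : ∀ c, 1 ≤ lam c := by
    intro c
    have h5 := hν (u c)
    rw [h3, h2, if_pos rfl, if_pos rfl] at h5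
    exact h5
  have h5 : ∀ c d, |u c d| ≤ 1 := by
    intro c d
    have h6 : u c ⬝ᵥ u c = 1 := by rw [h2, if_pos rfl]
    have h7 : u c d * u c d ≤ u c ⬝ᵥ u c :=
      Finset.single_le_sum (f := fun i => u c i * u c i) (fun i _ => mul_self_nonneg _) (Finset.mem_univ d)
    rw [h6] at h7
    exact abs_le_one_iff_mul_self_le_one.mpr h7
  have h6 : ∀ c, 0 < Real.sqrt (lam c) := fun c => Real.sqrt_pos.mpr (by linarith [h4 c])
  have h7 : ∀ c, 1 ≤ Real.sqrt (lam c) := fun c => Real.one_le_sqrt.mpr (h4 c)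
  refine ⟨Matrix.of fun c d => (Real.sqrt (lam c))⁻¹ * u c d, ?_, ?_⟩
  · intro b
    have e1 : b ᵥ* ((Matrix.of fun c d => (Real.sqrt (lam c))⁻¹ * u c d) * ν) =
        ∑ c, (b c * (Real.sqrt (lam c))⁻¹) • (u c ᵥ* ν) := by
      funext j
      rw [← Matrix.vecMul_vecMul, Finset.sum_apply]
      show ∑ d, (∑ c, b c * ((Real.sqrt (lam c))⁻¹ * u c d)) * ν d j = ∑ c, (b c * (Real.sqrt (lam c))⁻¹) * ∑ d, u c d * ν d j
      simp_rw [Finset.sum_mul, Finset.mul_sum]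
      rw [Finset.sum_comm]
      refine Finset.sum_congr rfl fun c _ => Finset.sum_congr rfl fun d _ => by ring
    rw [e1, sum_dotProduct]
    show ∑ c, ((b c * (Real.sqrt (lam c))⁻¹) • (u c ᵥ* ν)) ⬝ᵥ _ = ∑ c, b c * b c
    refine Finset.sum_congr rfl fun c _ => ?_
    rw [dotProduct_sum, Finset.sum_eq_single c]
    · rw [smul_dotProduct, dotProduct_smul, h3, if_pos rfl, smul_eq_mul, smul_eq_mul]
      have h8 : lam c = Real.sqrt (lam c) * Real.sqrt (lam c) := (Real.mul_self_sqrt (by linarith [h4 c])).symm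
      have h9 := (h6 c).ne'
      calc b c * (Real.sqrt (lam c))⁻¹ * (b c * (Real.sqrt (lam c))⁻¹ * lam c)
          = b c * (Real.sqrt (lam c))⁻¹ * (b c * (Real.sqrt (lam c))⁻¹ * (Real.sqrt (lam c) * Real.sqrt (lam c))) := by
            rw [← h8]
        _ = b c * b c := by
            field_simp
    · intro d _ hd
      rw [smul_dotProduct, dotProduct_smul, h3, if_neg (fun h => hd h.symm), smul_zero, smul_zero]
    · intro h; exact absurd (Finset.mem_univ _) h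
  · intro c d
    show |(Real.sqrt (lam c))⁻¹ * u c d| ≤ 1
    rw [abs_mul, abs_of_pos (inv_pos.mpr (h6 c))]
    have h8 : (Real.sqrt (lam c))⁻¹ ≤ 1 := inv_le_one_of_one_le₀ (h7 c)
    calc (Real.sqrt (lam c))⁻¹ * |u c d| ≤ 1 * 1 := mul_le_mul h8 (h5 c d) (abs_nonneg _) zero_le_one
      _ = 1 := one_mul 1

/-- entries of a family of orthonormal functionals -/
theorem onr_entry {γ β : Type} [Fintype γ] [Fintype β] {U : Matrix γ β ℝ}
    (hU : ∀ b : γ → ℝ, (b ᵥ* U) ⬝ᵥ (b ᵥ* U) = b ⬝ᵥ b) (c : γ) (j : β) : |U c j| ≤ 1 := by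
  classical
  have h1 := hU (Pi.single c 1)
  rw [Matrix.single_one_vecMul] at h1
  have h2 : (Pi.single c (1 : ℝ) : γ → ℝ) ⬝ᵥ (Pi.single c 1) = 1 := by
    rw [single_dotProduct, Pi.single_eq_same, one_mul]
  rw [h2] at h1
  have h3 : U c j * U c j ≤ U.row c ⬝ᵥ U.row c :=
    Finset.single_le_sum (f := fun i => U c i * U c i) (fun i _ => mul_self_nonneg _) (Finset.mem_univ j)
  rw [h1] at h3
  exact abs_le_one_iff_mul_self_le_one.mpr h3

/-- a label with a finer value -/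
def fvl {F : FSp} (l : FLab F) (C : Setoid l.T.Ω) : FLab F where
  T := l.T
  p := l.p
  hn := l.hn
  V := l.V ⊓ C

/-- the leak of a label with a finer value -/
theorem fvl_leak {F : FSp} (l : FLab F) (C : Setoid F.Ω) (x : FL F) :
    (fvl l (Setoid.comap l.p.π C)).leak x ≤ h (fc C) x + l.leak (fc C) := by
  have e0 : (fvl l (Setoid.comap l.p.π C)).v = l.v ⊔ l.p.map (fc C) := by
    show fc (l.V ⊓ Setoid.comap l.p.π C) = _
    rw [fc_inf]
    rfl
  have h1 : (fvl l (Setoid.comap l.p.π C)).leak x = I (l.v ⊔ l.p.map (fc C)) l.p.top (l.p.map x) := by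
    rw [← e0]
    rfl
  rw [h1, sup_comm, I_chain]
  have h2 := I_le_h_left (l.p.map (fc C)) l.p.top (l.p.map x)
  rw [l.p.h_map] at h2
  have h3 : I l.v l.p.top (l.p.map (fc C) ⊔ l.p.map x) ≤ l.leak (fc C) :=
    leak_cond le_sup_left (sup_le (l.p.map_le_top _) (l.p.map_le_top _))
  linarith

/-- the functionals of the space from the functionals of the space over the label -/
theorem exists_red {γ β β' : Type} [Fintype γ] [Fintype β] [Fintype β'] {K : ℝ} (hK : 0 ≤ K) (ν : Matrix γ β' ℝ)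
    (hν : Adm ν) : ∃ R : Matrix γ γ ℝ, (∀ (B : Matrix β' β ℝ), (∀ b : β' → ℝ, b ⬝ᵥ b ≤ K ^ 2 * ((b ᵥ* B) ⬝ᵥ (b ᵥ* B))) →
      Adm (K • ((R * ν) * B))) ∧ ∀ (B : Matrix β' β ℝ) (t : β → ℝ) (t' : β' → ℝ) (x err : ℝ), 0 ≤ x →
        (∀ c, |(ν *ᵥ t') c| ≤ x) → (∀ j, |(B *ᵥ t) j - t' j| ≤ err) →
          ∀ c, |((K • ((R * ν) * B)) *ᵥ t) c| ≤ K * (Fintype.card γ * x + Fintype.card β' * err) := by
  classical
  obtain ⟨R, h1, h2⟩ := exists_onr ν hν
  refine ⟨R, ?_, ?_⟩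
  · intro B hB b
    have e1 : b ᵥ* (K • ((R * ν) * B)) = K • ((b ᵥ* (R * ν)) ᵥ* B) := by
      rw [Matrix.vecMul_smul, Matrix.vecMul_vecMul]
    rw [e1, smul_dotProduct, dotProduct_smul, smul_eq_mul, smul_eq_mul, ← mul_assoc, ← sq, ← h1 b]
    exact hB _
  · intro B t t' x err hx h3 h4 c
    have e1 : (K • ((R * ν) * B)) *ᵥ t = K • ((R * ν) *ᵥ (B *ᵥ t)) := by
      rw [Matrix.smul_mulVec, ← Matrix.mulVec_mulVec]
    have e2 : (R * ν) *ᵥ (B *ᵥ t) = R *ᵥ (ν *ᵥ t') + (R * ν) *ᵥ (B *ᵥ t - t') := by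
      rw [Matrix.mulVec_sub, Matrix.mulVec_mulVec, Matrix.mulVec_mulVec t' R ν, add_sub_cancel]
    have h5 : |(R *ᵥ (ν *ᵥ t')) c| ≤ Fintype.card γ * x := by
      show |∑ d, R c d * (ν *ᵥ t') d| ≤ _
      refine (Finset.abs_sum_le_sum_abs _ _).trans ?_
      refine (Finset.sum_le_card_nsmul _ _ x fun d _ => ?_).trans (le_of_eq ?_)
      · rw [abs_mul]
        calc |R c d| * |(ν *ᵥ t') d| ≤ 1 * x := mul_le_mul (h2 c d) (h3 d) (abs_nonneg _) zero_le_one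
          _ = x := one_mul x
      · rw [nsmul_eq_mul, Finset.card_univ]
    have h6 : |((R * ν) *ᵥ (B *ᵥ t - t')) c| ≤ Fintype.card β' * err := by
      show |∑ j, (R * ν) c j * ((B *ᵥ t) j - t' j)| ≤ _
      refine (Finset.abs_sum_le_sum_abs _ _).trans ?_
      refine (Finset.sum_le_card_nsmul _ _ err fun j _ => ?_).trans (le_of_eq ?_)
      · rw [abs_mul]
        calc |(R * ν) c j| * |(B *ᵥ t) j - t' j| ≤ 1 * err :=
              mul_le_mul (onr_entry h1 c j) (h4 j) (abs_nonneg _) zero_le_one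
          _ = err := one_mul err
      · rw [nsmul_eq_mul, Finset.card_univ]
    rw [e1, Pi.smul_apply, smul_eq_mul, abs_mul, abs_of_nonneg hK, e2, Pi.add_apply]
    exact mul_le_mul_of_nonneg_left ((abs_add_le _ _).trans (add_le_add h5 h6)) hK

/-- NON CONCENTRATION IN THE SPACE OVER A LABEL, in new coordinates: the tangents of the space over the label are, up to
`err` and on the event `A`, the images of the tangents of the space under matrices `B` which are functions of the label, of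
the condition and of the new condition, and which do not contract functionals -/
theorem NCf.over {F : FSp} (l : FLab F) {e₁ : ℝ} (he₁ : 0 < e₁) (he₁' : e₁ ≤ 1) {C : Setoid F.Ω} {C' : Setoid l.T.Ω}
    {γ : Type} [Fintype γ] {α α' β β' : Type} [Fintype β] [Fintype β'] {t : F.Ω → α → β → ℝ}
    {t' : l.T.Ω → α' → β' → ℝ} (B : l.T.Ω → Matrix β' β ℝ)
    (hB : ∀ w w', l.T.μ w ≠ 0 → l.T.μ w' ≠ 0 → l.T.Z w w' → l.V w w' → C (l.p.π w) (l.p.π w') → C' w w' → B w = B w')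
    {K : ℝ} (hK : 0 ≤ K)
    (hlow : ∀ w, l.T.μ w ≠ 0 → ∀ b : β' → ℝ, b ⬝ᵥ b ≤ K ^ 2 * ((b ᵥ* B w) ⬝ᵥ (b ᵥ* B w)))
    (A : l.T.Ω → Prop) {δ₁ err : ℝ} (hA : l.T.pb (fun w => ¬ A w) ≤ δ₁)
    (ht : ∀ w, l.T.μ w ≠ 0 → A w → ∀ a, ∃ a', ∀ j, |(B w *ᵥ t (l.p.π w) a) j - t' w a' j| ≤ err)
    {h₀ δ δ' κ : ℝ} (h0 : 0 < h₀) (hδ : 0 < δ) (hκ0 : 0 ≤ κ) (hκ : κ ≤ δ * e₁ / 2) (hd : δ' ≤ δ * e₁ / 2)
    (hcost : K * (Fintype.card γ + Fintype.card β' * (err * 2 ^ (e₁ / 2 * F.n))) ≤ 2 ^ (κ * F.n))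
    (hb : 2 * κ / (δ * e₁) + 2 * (l.leak (fc C) + h (fc C' : FL (l.ovr e₁ he₁)) (l.up e₁ he₁ (fc C))) /
      (h₀ * δ * e₁ * F.n) + δ' + δ₁ ≤ δ)
    (H : NCf F C γ t h₀ δ') : NCf (l.ovr e₁ he₁) C' γ t' h₀ δ := by
  classical
  intro l2 ν h1 h2 e he he'
  have hn : (l.ovr e₁ he₁).n = e₁ * F.n := by
    show e₁ * l.T.n = e₁ * F.n
    rw [l.hn]
  have hF := F.pos
  have he0 : 0 < e := hδ.trans_le he
  have hee : 0 < e * e₁ := mul_pos he0 he₁
  have hde : 0 < δ * e₁ := mul_pos hδ he₁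
  have hle : δ * e₁ ≤ e * e₁ := mul_le_mul_of_nonneg_right he he₁.le
  have hek0 : 0 < e * e₁ - κ := by linarith
  set L2 := l2.leak (fc C') with hL2
  by_cases hbig : 1 ≤ L2 / (h₀ * e * (l.ovr e₁ he₁).n)
  · have h3 : 0 ≤ 2 * κ / (δ * e₁) := by positivity
    exact (l2.T.pb_le_one _).trans (by linarith)
  rw [not_le] at hbig
  -- the reduction of the functionals
  set Rf : Matrix γ β' ℝ → Matrix γ γ ℝ := fun ν => if hν : Adm ν then (exists_red (β := β) hK ν hν).choose else 0 with hRf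
  have hR1 : ∀ ν : Matrix γ β' ℝ, Adm ν → ∀ (B : Matrix β' β ℝ), (∀ b : β' → ℝ, b ⬝ᵥ b ≤ K ^ 2 *
      ((b ᵥ* B) ⬝ᵥ (b ᵥ* B))) → Adm (K • ((Rf ν * ν) * B)) := by
    intro ν hν
    rw [hRf]
    beta_reduce
    rw [dif_pos hν]
    exact (exists_red (β := β) hK ν hν).choose_spec.1
  have hR2 : ∀ ν : Matrix γ β' ℝ, Adm ν → ∀ (B : Matrix β' β ℝ) (t : β → ℝ) (t' : β' → ℝ) (x err : ℝ), 0 ≤ x →
      (∀ c, |(ν *ᵥ t') c| ≤ x) → (∀ j, |(B *ᵥ t) j - t' j| ≤ err) →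
        ∀ c, |((K • ((Rf ν * ν) * B)) *ᵥ t) c| ≤ K * (Fintype.card γ * x + Fintype.card β' * err) := by
    intro ν hν
    rw [hRf]
    beta_reduce
    rw [dif_pos hν]
    exact (exists_red (β := β) hK ν hν).choose_spec.2
  have key := H (l.comp e₁ he₁ (fvl l2 (Setoid.comap l2.p.π C')))
    (fun w => K • ((Rf (ν w) * ν w) * B (l2.p.π w)))
    (fun w w' a b c d f => by
      show K • ((Rf (ν w) * ν w) * B (l2.p.π w)) = K • ((Rf (ν w') * ν w') * B (l2.p.π w'))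
      have e1 : l.V (l2.p.π w) (l2.p.π w') := d.1
      have e2 : l.T.Z (l2.p.π w) (l2.p.π w') := (l.p.hZ _ _ (l2.p.supp w a) (l2.p.supp w' b)).mpr c
      rw [h1 w w' a b ((l2.p.hZ w w' a b).mpr ⟨e1, e2⟩) d.2.1 d.2.2,
        hB _ _ (l2.p.supp w a) (l2.p.supp w' b) e2 e1 f d.2.2])
    (fun w hw => hR1 _ (h2 w hw) _ (hlow _ (l2.p.supp w hw)))
    (e * e₁ - κ) (by linarith) (by nlinarith)
  have e0 : l2.T.pb (fun w => ∀ a c, |(ν w *ᵥ t' (l2.p.π w) a) c| ≤ 2 ^ (-(e * (l.ovr e₁ he₁).n))) ≤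
      (l.comp e₁ he₁ (fvl l2 (Setoid.comap l2.p.π C'))).T.pb (fun w => ∀ a c,
        |((K • ((Rf (ν w) * ν w) * B (l2.p.π w))) *ᵥ
          t ((l.comp e₁ he₁ (fvl l2 (Setoid.comap l2.p.π C'))).p.π w) a) c| ≤ 2 ^ (-((e * e₁ - κ) * F.n))) + δ₁ := by
    have f1 : l2.T.pb (fun w => ∀ a c, |(ν w *ᵥ t' (l2.p.π w) a) c| ≤ 2 ^ (-(e * (l.ovr e₁ he₁).n))) ≤
        l2.T.pb (fun w => (∀ a c, |((K • ((Rf (ν w) * ν w) * B (l2.p.π w))) *ᵥ t (l.p.π (l2.p.π w)) a) c| ≤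
          2 ^ (-((e * e₁ - κ) * F.n))) ∨ ¬ A (l2.p.π w)) := by
      refine l2.T.pb_mono ?_
      intro w hw hs
      by_cases hAw : A (l2.p.π w)
      · left
        intro a c
        obtain ⟨a', ha'⟩ := ht _ (l2.p.supp w hw) hAw a
        have g0 : (0 : ℝ) ≤ 2 ^ (-(e * (l.ovr e₁ he₁).n)) := by positivity
        refine (hR2 _ (h2 w hw) (B (l2.p.π w)) _ _ _ err g0 (fun c => hs a' c) ha' c).trans ?_
        rw [hn]
        have g1 : (2 : ℝ) ^ (-((e * e₁ - κ) * F.n)) = 2 ^ (-(e * (e₁ * F.n))) * 2 ^ (κ * F.n) := by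
          rw [← Real.rpow_add two_pos]
          congr 1
          ring
        rw [g1]
        have g2 : (0 : ℝ) < 2 ^ (-(e * (e₁ * F.n))) := by positivity
        by_cases herr : 0 ≤ err
        · have g3 : err ≤ 2 ^ (-(e * (e₁ * F.n))) * (err * 2 ^ (e₁ / 2 * F.n)) := by
            have g4 : (1 : ℝ) ≤ 2 ^ (-(e * (e₁ * F.n))) * 2 ^ (e₁ / 2 * F.n) := by
              rw [← Real.rpow_add two_pos]
              apply Real.one_le_rpow one_le_two
              have : e * (e₁ * F.n) ≤ 1 / 2 * (e₁ * F.n) := mul_le_mul_of_nonneg_right he' (by positivity)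
              linarith
            calc err = err * 1 := (mul_one _).symm
              _ ≤ err * (2 ^ (-(e * (e₁ * F.n))) * 2 ^ (e₁ / 2 * F.n)) := mul_le_mul_of_nonneg_left g4 herr
              _ = _ := by ring
          calc K * (Fintype.card γ * 2 ^ (-(e * (e₁ * F.n))) + Fintype.card β' * err)
              ≤ K * (Fintype.card γ * 2 ^ (-(e * (e₁ * F.n))) +
                Fintype.card β' * (2 ^ (-(e * (e₁ * F.n))) * (err * 2 ^ (e₁ / 2 * F.n)))) :=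
                mul_le_mul_of_nonneg_left (add_le_add le_rfl (mul_le_mul_of_nonneg_left g3 (by positivity))) hK
            _ = 2 ^ (-(e * (e₁ * F.n))) *
                (K * (Fintype.card γ + Fintype.card β' * (err * 2 ^ (e₁ / 2 * F.n)))) := by ring
            _ ≤ 2 ^ (-(e * (e₁ * F.n))) * 2 ^ (κ * F.n) := mul_le_mul_of_nonneg_left hcost g2.le
        · by_cases hβ : IsEmpty β'
          · have g5 : (Fintype.card β' : ℝ) = 0 := by rw [Fintype.card_eq_zero, Nat.cast_zero]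
            rw [g5] at hcost ⊢
            calc K * (Fintype.card γ * 2 ^ (-(e * (e₁ * F.n))) + 0 * err)
                = 2 ^ (-(e * (e₁ * F.n))) * (K * (Fintype.card γ + 0 * (err * 2 ^ (e₁ / 2 * F.n)))) := by ring
              _ ≤ 2 ^ (-(e * (e₁ * F.n))) * 2 ^ (κ * F.n) := mul_le_mul_of_nonneg_left hcost g2.le
          · rw [not_isEmpty_iff] at hβ
            exact absurd ((abs_nonneg _).trans (ha' hβ.some)) herr
      · exact Or.inr hAw
    have f2 := pb_or l2.T (fun w => ∀ a c, |((K • ((Rf (ν w) * ν w) * B (l2.p.π w))) *ᵥ t (l.p.π (l2.p.π w)) a) c| ≤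
          2 ^ (-((e * e₁ - κ) * F.n))) (fun w => ¬ A (l2.p.π w))
    have f3 : l2.T.pb (fun w => ¬ A (l2.p.π w)) = l.T.pb (fun w => ¬ A w) := pb_push l2.p (fun w => ¬ A w)
    have f4 : l2.T.pb (fun w => ∀ a c, |((K • ((Rf (ν w) * ν w) * B (l2.p.π w))) *ᵥ t (l.p.π (l2.p.π w)) a) c| ≤
          2 ^ (-((e * e₁ - κ) * F.n))) = (l.comp e₁ he₁ (fvl l2 (Setoid.comap l2.p.π C'))).T.pb (fun w => ∀ a c,
        |((K • ((Rf (ν w) * ν w) * B (l2.p.π w))) *ᵥ
          t ((l.comp e₁ he₁ (fvl l2 (Setoid.comap l2.p.π C'))).p.π w) a) c| ≤ 2 ^ (-((e * e₁ - κ) * F.n))) := rfl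
    rw [← f4]
    linarith
  have h3 := l.comp_leak_le e₁ he₁ (fvl l2 (Setoid.comap l2.p.π C')) (fc C)
  have h4 := fvl_leak l2 C' (l.up e₁ he₁ (fc C))
  set X := l.leak (fc C) + h (fc C' : FL (l.ovr e₁ he₁)) (l.up e₁ he₁ (fc C)) with hX
  have hX0 : 0 ≤ X := add_nonneg (l.leak_nonneg _) (h_nonneg _ _)
  have hL0 : 0 ≤ L2 := l2.leak_nonneg _
  have h5 : 0 < h₀ * (e * e₁ - κ) * F.n := by positivity
  have h6 : (l.comp e₁ he₁ (fvl l2 (Setoid.comap l2.p.π C'))).leak (fc C) / (h₀ * (e * e₁ - κ) * F.n) ≤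
      X / (h₀ * (e * e₁ - κ) * F.n) + L2 / (h₀ * (e * e₁ - κ) * F.n) := by
    rw [← add_div]
    exact div_le_div_of_nonneg_right (by linarith) h5.le
  have h7 : X / (h₀ * (e * e₁ - κ) * F.n) ≤ 2 * X / (h₀ * δ * e₁ * F.n) := by
    rw [div_le_div_iff₀ h5 (by positivity)]
    have g1 : h₀ * δ * e₁ * F.n ≤ 2 * (h₀ * (e * e₁ - κ) * F.n) := by
      have g2 : δ * e₁ ≤ 2 * (e * e₁ - κ) := by linarith
      have g3 : h₀ * F.n * (δ * e₁) ≤ h₀ * F.n * (2 * (e * e₁ - κ)) := mul_le_mul_of_nonneg_left g2 (by positivity)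
      linarith
    have := mul_le_mul_of_nonneg_left g1 hX0
    linarith
  have h8 : L2 / (h₀ * (e * e₁ - κ) * F.n) ≤ L2 / (h₀ * e * (l.ovr e₁ he₁).n) + 2 * κ / (δ * e₁) := by
    rw [hn] at hbig ⊢
    have g1 : L2 / (h₀ * (e * e₁ - κ) * F.n) = L2 / (h₀ * e * (e₁ * F.n)) * (1 + κ / (e * e₁ - κ)) := by
      field_simp
      ring
    have g2 : κ / (e * e₁ - κ) ≤ 2 * κ / (δ * e₁) := by
      rw [div_le_div_iff₀ hek0 hde]
      nlinarith
    have g3 : 0 ≤ κ / (e * e₁ - κ) := by positivity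
    have g4 : 0 ≤ L2 / (h₀ * e * (e₁ * F.n)) := by positivity
    rw [g1, mul_add, mul_one]
    have : L2 / (h₀ * e * (e₁ * F.n)) * (κ / (e * e₁ - κ)) ≤ 1 * (2 * κ / (δ * e₁)) :=
      mul_le_mul hbig.le g2 g3 zero_le_one
    linarith
  linarith

end

end Pool.Agent.Helper59.OKD
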