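import Pool.Agent.Helper37.DK2.Clo
import Pool.Agent.Helper37.DK2.Nou
import Pool.Agent.Helper59.OKD.Zf
import Pool.Agent.Helper47.FN.Hull
import Pool.Agent.Helper87.NSL.Inv

/-! NON CONCENTRATION OF THE TANGENTS GIVEN A RESOLUTION: `NCR k h s R`. Closure: other resolutions, events of extensions,
truncations, more types, changes of the point, diagonals; spaces over a label in new coordinates. -/

set_option autoImplicit false

namespace Pool.Agent.Helper59.OKD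

open Finset Filter Topology Matrix Pool.Agent.Helper69.RK Pool.Agent.Helper31.EC Pool.Agent.Helper31.EC.Sp
open Pool.Agent.Helper40.EL Pool.Agent.Helper89.LX Pool.Agent.Helper3.LF Pool.Agent.Helper84.MT
open Pool.Agent.Helper49.MD Pool.Agent.Helper36.AM Pool.Agent.Helper37.DK2
open Pool.Agent.Helper47.FN (KR lftR obR lftR_ob)
open Pool.Agent.Helper87.NSL (KnS)

noncomputable section

/-! ### finite level -/

/-- change of the condition -/
theorem NCf.cnd {F : FSp} {C C' : Setoid F.Ω} {γ : Type} [Fintype γ] {α β : Type} [Fintype β] {t : F.Ω → α → β → ℝ}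
    {h₀ δ δ' : ℝ} (h0 : 0 < h₀) (hδ : 0 < δ) (hb : h (fc C' : FL F) (fc C) / (h₀ * δ * F.n) + δ' ≤ δ)
    (H : NCf F C γ t h₀ δ') : NCf F C' γ t h₀ δ := by
  intro l ν h1 h2 e he he'
  have hn := F.pos
  have he0 : 0 < e := hδ.trans_le he
  have h3 : 0 ≤ h (fc C' : FL F) (fc C) / (h₀ * δ * F.n) := div_nonneg (h_nonneg _ _) (by positivity)
  have h4 := H (fvl l (Setoid.comap l.p.π C')) ν (fun w w' a b c d _ => h1 w w' a b c d.1 d.2) h2 e (by linarith) he'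
  have h5 := fvl_leak l C' (fc C)
  have h6 : (fvl l (Setoid.comap l.p.π C')).leak (fc C) / (h₀ * e * F.n) ≤
      h (fc C' : FL F) (fc C) / (h₀ * δ * F.n) + l.leak (fc C') / (h₀ * e * F.n) := by
    refine (div_le_div_of_nonneg_right h5 (by positivity)).trans ?_
    rw [add_div]
    have h7 : h (fc C' : FL F) (fc C) / (h₀ * e * F.n) ≤ h (fc C' : FL F) (fc C) / (h₀ * δ * F.n) :=
      div_le_div_of_nonneg_left (h_nonneg _ _) (by positivity)
        (mul_le_mul_of_nonneg_right (mul_le_mul_of_nonneg_left he h0.le) hn.le)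
    linarith
  have h7 : (fvl l (Setoid.comap l.p.π C')).T.pb (fun w => ∀ a c,
      |(ν w *ᵥ t ((fvl l (Setoid.comap l.p.π C')).p.π w) a) c| ≤ 2 ^ (-(e * F.n))) =
      l.T.pb (fun w => ∀ a c, |(ν w *ᵥ t (l.p.π w) a) c| ≤ 2 ^ (-(e * F.n))) := rfl
  rw [← h7]
  linarith

/-- truncation -/
theorem NCf.trn {F : FSp} {C : Setoid F.Ω} {γ : Type} [Fintype γ] {α β : Type} [Fintype β] {t : F.Ω → α → β → ℝ}
    {h₀ δ δ' r : ℝ} (r0 : 0 < r) (r1 : r ≤ 1) (hd : δ' ≤ δ * r) (hδ : 0 < δ) (H : NCf F C γ t h₀ δ') :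
    NCf (F.chg ⊤ r r0) C γ t h₀ δ := by
  intro l ν h1 h2 e he he'
  have he0 : 0 < e := hδ.trans_le he
  have h3 := H (Pool.Agent.Helper52.SL.untF r r0 l) ν (fun w w' a b c d e1 => h1 w w' a b c d e1) h2 (e * r)
    (hd.trans (mul_le_mul_of_nonneg_right he r0.le)) (by nlinarith)
  have h4 : δ' ≤ δ := hd.trans (mul_le_of_le_one_right hδ.le r1)
  have e1 : e * r * F.n = e * (F.chg ⊤ r r0).n := by
    show _ = e * (r * F.n)
    ring
  have e2 : h₀ * (e * r) * F.n = h₀ * e * (F.chg ⊤ r r0).n := by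
    show _ = h₀ * e * (r * F.n)
    ring
  rw [e1, e2] at h3
  have h5 : (Pool.Agent.Helper52.SL.untF r r0 l).T.pb (fun w => ∀ a c,
      |(ν w *ᵥ t ((Pool.Agent.Helper52.SL.untF r r0 l).p.π w) a) c| ≤ 2 ^ (-(e * (F.chg ⊤ r r0).n))) =
      l.T.pb (fun w => ∀ a c, |(ν w *ᵥ t (l.p.π w) a) c| ≤ 2 ^ (-(e * (F.chg ⊤ r r0).n))) := rfl
  rw [h5] at h3
  have h6 : (Pool.Agent.Helper52.SL.untF r r0 l).leak (fc C) = l.leak (fc (F := F.chg ⊤ r r0) C) := rfl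
  rw [h6] at h3
  linarith

/-! ### sequences -/

variable {S T : Sp} {M : ℕ} {E : ℕ → ℕ} {ι κ : Type}

/-- NON CONCENTRATION of the tangents given the resolution `R` -/
def NCR (k : ℕ) (h₀ : ℝ) (s : MSys S M E ι) (R : ∀ n, Setoid (S.F n).Ω) : Prop :=
  ∀ δ : ℝ, 0 < δ → ∀ᶠ n in UF, NCf (S.F n) (R n) (Fin (M + 1 - k)) (mtan (ob s n)) h₀ δ

theorem NCR_vis {k : ℕ} {h₀ : ℝ} {s : MSys S M E ι} :
    NCR k h₀ s (fun n => Setoid.ker (s.Q.cellv 1 n)) ↔ NC k h₀ s := Iff.rfl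

variable {k : ℕ} {h₀ : ℝ} {s : MSys S M E ι} {R R' : ∀ n, Setoid (S.F n).Ω}

/-- CHANGE OF THE RESOLUTION -/
theorem NCR.cnd (h0 : 0 < h₀) (H : NCR k h₀ s R)
    (hR : Nul S fun n => h (fc (R' n) : FL (S.F n)) (fc (R n))) : NCR k h₀ s R' := by
  intro δ hδ
  have h1 : Tendsto (fun n => h (fc (R' n) : FL (S.F n)) (fc (R n)) / (S.F n).n) UF (𝓝 0) := hR
  have hX : 0 < h₀ * δ * (δ / 2) := by positivity
  filter_upwards [H (δ / 2) (by positivity), h1.eventually (gt_mem_nhds hX)] with n a b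
  refine NCf.cnd h0 hδ ?_ a
  have hn := (S.F n).pos
  rw [div_lt_iff₀ hn] at b
  have h2 : h (fc (R' n) : FL (S.F n)) (fc (R n)) / (h₀ * δ * (S.F n).n) ≤ δ / 2 := by
    rw [div_le_iff₀ (by positivity)]
    nlinarith
  linarith

/-- the resolution `R'` is a function of `R` and of the base -/
theorem NCR.res (h0 : 0 < h₀) (H : NCR k h₀ s R) (hR : ∀ᶠ n in UF, ∀ w w', (S.F n).μ w ≠ 0 → (S.F n).μ w' ≠ 0 →
    (S.F n).Z w w' → R n w w' → R' n w w') : NCR k h₀ s R' := by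
  refine H.cnd h0 ?_
  refine Tendsto.congr' ?_ (tendsto_const_nhds : Tendsto (fun _ : ℕ => (0 : ℝ)) UF (𝓝 0))
  filter_upwards [hR] with n hn
  rw [h_zero (fc_le fun w w' a b c d => hn w w' a b c d), zero_div]

/-- THE SPACE OVER A LABEL, in new coordinates -/
theorem NCR.over (h0 : 0 < h₀) (H : NCR k h₀ s R) (l : Lab S) {e : ℝ} (he : 0 < e) (he1 : e ≤ 1)
    (hl : Nul S fun n => (l n).leak (fc (R n))) {E' : ℕ → ℕ} {ι' : Type} {t : MSys (l.ovr e he) M E' ι'}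
    {R' : ∀ n, Setoid ((l.ovr e he).F n).Ω}
    (hR' : Nul S fun n => h (fc (R' n) : FL ((l n).ovr e he)) ((l n).up e he (fc (R n))))
    (B : ∀ n, (l n).T.Ω → Matrix (Fin M) (Fin M) ℝ)
    (hB : ∀ᶠ n in UF, ∀ w w', (l n).T.μ w ≠ 0 → (l n).T.μ w' ≠ 0 → (l n).T.Z w w' → (l n).V w w' →
      R n ((l n).p.π w) ((l n).p.π w') → R' n w w' → B n w = B n w')
    {K : ℕ → ℝ} (hK : S.Sub K) (hlow : ∀ᶠ n in UF, ∀ w, (l n).T.μ w ≠ 0 → ∀ b : Fin M → ℝ,
      b ⬝ᵥ b ≤ K n ^ 2 * ((b ᵥ* B n w) ⬝ᵥ (b ᵥ* B n w)))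
    (ht : Typ (S := l.sp) fun n (w : (l n).T.Ω) => ∀ a, ∃ a', ∀ j,
      |(B n w *ᵥ mtan (ob s n) ((l n).p.π w) a) j - mtan (ob t n) w a' j| ≤ K n * S.dl (e / 2) n) :
    NCR k h₀ t R' := by
  intro δ hδ
  set δ' : ℝ := min (δ * e / 2) (δ / 4) with hδ'
  have hδ'0 : 0 < δ' := lt_min (by positivity) (by positivity)
  set κ : ℝ := min (δ * e / 2) (δ ^ 2 * e / 8) with hκ
  have hκ0 : 0 < κ := lt_min (by positivity) (by positivity)
  have hX := hl.add hR'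
  have hX' : Tendsto (fun n => ((l n).leak (fc (R n)) + h (fc (R' n) : FL ((l n).ovr e he))
    ((l n).up e he (fc (R n)))) / (S.F n).n) UF (𝓝 0) := hX
  have h1 := sub_le_rpow (S := S) (hK.mul ((S.Sub_const (show (0 : ℝ) ≤ (M : ℝ) + 1 by positivity)).add
    ((S.Sub_const (show (0 : ℝ) ≤ (M : ℝ) by positivity)).mul hK))) hκ0
  have h2 : ∀ᶠ n in UF, (l.sp.F n).pb (fun w : (l n).T.Ω => ¬ ∀ a, ∃ a', ∀ j,
      |(B n w *ᵥ mtan (ob s n) ((l n).p.π w) a) j - mtan (ob t n) w a' j| ≤ K n * S.dl (e / 2) n) < δ / 4 :=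
    ht.eventually (gt_mem_nhds (by positivity))
  filter_upwards [H δ' hδ'0, hX'.eventually (gt_mem_nhds (show 0 < h₀ * δ * e * (δ / 8) by positivity)), hB, hlow,
    h1, h2, hK.1] with n a1 a2 a3 a4 a5 a6 a7
  have hn := (S.F n).pos
  have hdl : S.dl (e / 2) n = 2 ^ (-(e / 2 * (S.F n).n)) := rfl
  refine NCf.over (F := S.F n) (l n) he he1 (C := R n) (C' := R' n) (K := K n)
    (B n) a3 a7 a4 (fun w : (l n).T.Ω => ∀ a, ∃ a', ∀ j,
      |(B n w *ᵥ mtan (ob s n) ((l n).p.π w) a) j - mtan (ob t n) w a' j| ≤ K n * S.dl (e / 2) n) (δ₁ := δ / 4)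
      (err := K n * S.dl (e / 2) n) a6.le (fun w _ h3 => h3) h0 hδ hκ0.le (min_le_left _ _) (min_le_left _ _) ?_ ?_ a1
  · have e1 : K n * S.dl (e / 2) n * 2 ^ (e / 2 * (S.F n).n) = K n := by
      rw [hdl, mul_assoc, ← Real.rpow_add two_pos, neg_add_cancel, Real.rpow_zero, mul_one]
    rw [e1, Fintype.card_fin, Fintype.card_fin]
    have h3 : ((M + 1 - k : ℕ) : ℝ) ≤ (M : ℝ) + 1 := by
      have : M + 1 - k ≤ M + 1 := Nat.sub_le _ _
      exact_mod_cast this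
    refine le_trans (mul_le_mul_of_nonneg_left ?_ a7) a5
    linarith
  · have h3 : 2 * κ / (δ * e) ≤ δ / 4 := by
      rw [div_le_iff₀ (by positivity)]
      have : κ ≤ δ ^ 2 * e / 8 := min_le_right _ _
      nlinarith
    have h4 : 2 * ((l n).leak (fc (R n)) + h (fc (R' n) : FL ((l n).ovr e he)) ((l n).up e he (fc (R n)))) /
        (h₀ * δ * e * (S.F n).n) ≤ δ / 4 := by
      rw [div_lt_iff₀ hn] at a2
      rw [div_le_iff₀ (by positivity)]
      nlinarith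
    have h5 : δ' ≤ δ / 4 := min_le_right _ _
    linarith

/-! ### extensions, types -/

theorem NCR.pull (h0 : 0 < h₀) (H : NCR k h₀ s R) (p : Pj T S) :
    NCR k h₀ (s.pull p) fun n => Setoid.comap (p.π n) (R n) := by
  intro δ hδ
  filter_upwards [H δ hδ] with n hk
  have h2 := NCf.pull (p.fp n) (p.hn n) (C' := Setoid.comap (p.π n) (R n)) (fun ω ω' _ _ => Iff.rfl) h0 hδ hk
  show NCf (T.F n) (Setoid.comap (p.π n) (R n)) (Fin (M + 1 - k)) (mtan (ob (s.pull p) n)) h₀ δ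
  rw [mtan_pull]
  exact h2

theorem exists_ftan {Ω : Type} {x y : FLf Ω M} (h : x = y) (ω : Ω) (a : Fin x.e) :
    ∃ a' : Fin y.e, ftan x ω a = ftan y ω a' := by
  subst h
  exact ⟨a, rfl⟩

/-- MORE TYPES, other points, other exponents: the leaves of the system are leaves of the other system -/
theorem NCR.more [Finite ι] (H : NCR k h₀ s R) {E' : ℕ → ℕ} {u : MSys S M E' κ} (f : ι → κ)
    (hf : ∀ i, ∀ᶠ n in UF, lob (u.lf (f i)) n = lob (s.lf i) n) : NCR k h₀ u R := by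
  intro δ hδ
  have hf' := eventually_all.mpr hf
  filter_upwards [H δ hδ, hf'] with n hk h1
  refine hk.sub fun ω _ a => ?_
  obtain ⟨i, a⟩ := a
  obtain ⟨a', h2⟩ := exists_ftan (h1 i).symm ω a
  exact ⟨⟨f i, a'⟩, h2⟩

/-- permutations of the coordinates -/
theorem NCR.perm [Finite ι] (H : NCR k h₀ s R) (σ : Equiv.Perm (Fin M)) {t : MSys S M E ι}
    (ht : ∀ i n, lob (t.lf i) n = { lob (s.lf i) n with F := fun ω y j => (lob (s.lf i) n).F ω y (σ j) }) :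
    NCR k h₀ t R := by
  intro δ hδ
  filter_upwards [H δ hδ] with n hk
  intro l ν h1 h2 e he he'
  have h3 := hk l (fun w => (ν w).submatrix id σ.symm) (fun w w' a b c d e1 => by
    show (ν w).submatrix id σ.symm = (ν w').submatrix id σ.symm
    rw [h1 w w' a b c d e1]) (fun w hw b => by
      have e1 : b ᵥ* (ν w).submatrix id σ.symm = fun j => (b ᵥ* ν w) (σ.symm j) := rfl
      have e2 : (fun j => (b ᵥ* ν w) (σ.symm j)) ⬝ᵥ (fun j => (b ᵥ* ν w) (σ.symm j)) = (b ᵥ* ν w) ⬝ᵥ (b ᵥ* ν w) :=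
        Equiv.sum_comp σ.symm fun j => (b ᵥ* ν w) j * (b ᵥ* ν w) j
      rw [e1, e2]
      exact h2 w hw b) e he he'
  refine le_trans (l.T.pb_mono ?_) h3
  intro w hw h4 a c
  obtain ⟨i, a⟩ := a
  obtain ⟨a', h5⟩ := exists_ftan (x := { lob (s.lf i) n with F := fun ω y j => (lob (s.lf i) n).F ω y (σ j) })
    (ht i n).symm (l.p.π w) a
  have h6 := h4 ⟨i, a'⟩ c
  have h7 : mtan (ob t n) (l.p.π w) ⟨i, a'⟩ = fun j => mtan (ob s n) (l.p.π w) ⟨i, a⟩ (σ j) := by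
    show ftan (lob (t.lf i) n) (l.p.π w) a' = _
    rw [← h5]
    rfl
  rw [h7] at h6
  have h8 : (ν w *ᵥ fun j => mtan (ob s n) (l.p.π w) ⟨i, a⟩ (σ j)) c =
      ((ν w).submatrix id σ.symm *ᵥ mtan (ob s n) (l.p.π w) ⟨i, a⟩) c := by
    show ∑ j, ν w c j * mtan (ob s n) (l.p.π w) ⟨i, a⟩ (σ j) =
      ∑ j, ν w c (σ.symm j) * mtan (ob s n) (l.p.π w) ⟨i, a⟩ j
    rw [← Equiv.sum_comp σ fun j => ν w c (σ.symm j) * mtan (ob s n) (l.p.π w) ⟨i, a⟩ j]
    refine Finset.sum_congr rfl fun j _ => ?_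
    rw [Equiv.symm_apply_apply]
  rw [h8] at h6
  exact h6

theorem mtan_im (s : MSys S M E ι) (p : Pj T S) (A : ∀ n, (T.F n).Ω → Prop) (hA : 0 < ul (T.pr A)) (n : ℕ) :
    mtan (ob (s.im p A hA) n) = mtan (ob s n) := rfl

theorem mtan_trn (s : MSys S M E ι) (e : ℝ) (he : 0 < e) (h1 : e ≤ 1) (n : ℕ) :
    mtan (ob (s.trn e he h1) n) = mtan (ob s n) := rfl

theorem NCR.im (h0 : 0 < h₀) (H : NCR k h₀ s R) (p : Pj T S) (A : ∀ n, (T.F n).Ω → Prop) (hA : 0 < ul (T.pr A)) :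
    NCR k h₀ (s.im p A hA) R := by
  intro δ hδ
  set r := min (ul (T.pr A) / 2) 1 with hr
  have hr0 : 0 < r := lt_min (by positivity) one_pos
  have hr1 : r ≤ 1 := min_le_right _ _
  have hd' : 0 < δ * r / 2 := by positivity
  have t1 : Tendsto (fun n => 1 / (h₀ * δ) / (S.F n).n) UF (𝓝 0) := S.div_n_tendsto _
  filter_upwards [H (δ * r / 2) hd', (ul_tendsto (UB_pr A)).eventually (eventually_ge_nhds
    (show r < ul (T.pr A) from lt_of_le_of_lt (min_le_left _ _) (by linarith))), t1.eventually (gt_mem_nhds hd')]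
    with n hk hp ht
  have e1 : 1 / (h₀ * δ * (S.F n).n) = 1 / (h₀ * δ) / (S.F n).n := by rw [div_div]
  have h2 := NCf.im (p.fp n) (A n) (δ := δ) h0 hd' hr0 hp (by nlinarith) (by rw [e1]; linarith) hk
  show NCf (FSp.im (p.fp n) (A n)) (R n) (Fin (M + 1 - k)) (mtan (ob (s.im p A hA) n)) h₀ δ
  rw [mtan_im]
  exact h2

theorem NCR.trn (H : NCR k h₀ s R) (e : ℝ) (he : 0 < e) (h1 : e ≤ 1) : NCR k h₀ (s.trn e he h1) R := by
  intro δ hδ
  filter_upwards [H (δ * e) (by positivity)] with n hk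
  have h2 := NCf.trn he h1 le_rfl hδ hk
  show NCf ((S.F n).chg ⊤ e he) (R n) (Fin (M + 1 - k)) (mtan (ob (s.trn e he h1) n)) h₀ δ
  rw [mtan_trn]
  exact h2

theorem NCR.le {h₁ : ℝ} (h0 : 0 < h₁) (hh : h₁ ≤ h₀) (H : NCR k h₀ s R) : NCR k h₁ s R := by
  intro δ hδ
  filter_upwards [H δ hδ] with n hk
  exact hk.le h0 hh hδ

theorem NCR.anti {k' : ℕ} (hk : k' ≤ k) (H : NCR k h₀ s R) : NCR k' h₀ s R := by
  intro δ hδ
  filter_upwards [H δ hδ] with n h1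
  exact h1.inj (Fin.castLE (by omega)) (Fin.castLE_injective _)

end

end Pool.Agent.Helper59.OKD
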