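import Pool.Agent.Helper59.OKD.Fd
import Pool.Agent.Helper46.OKD.Oka
import Pool.Agent.Helper37.OKD.Dg

/-! THE NON CONCENTRATION CLASSES `DKU` are classes to which MAX applies: `okM N (DKU N k) (DKU N k)`. -/

set_option autoImplicit false

namespace Pool.Agent.Helper59.OKD

open Finset Filter Topology Matrix Pool.Agent.Helper69.RK Pool.Agent.Helper31.EC Pool.Agent.Helper31.EC.Sp
open Pool.Agent.Helper40.EL Pool.Agent.Helper89.LX Pool.Agent.Helper84.MT
open Pool.Agent.Helper49.MD Pool.Agent.Helper36.AM Pool.Agent.Helper37.DK2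
open Pool.Agent.Helper29.MX Pool.Agent.Helper8.CPY
open Pool.Agent.Helper18.PRM (vcrd scrd)
open Pool.Agent.Helper7.RD (RW)

noncomputable section

theorem cn_dg (M k m g r : ℕ) : DiagCl (lft fun S (s : MSys S M (lin g) (Fin r)) => CN M k m S g r s) :=
  Pool.Agent.Helper37.OKD.diagCl_ex (Pool.Agent.Helper37.OKD.dg_pair k (1 / ((m : ℝ) + 1)))

theorem okc_DKU (M k : ℕ) : Okc M (DKU M k) (CN M k) where
  oA := Pool.Agent.Helper46.OKD.okA_DKU M k
  le := fun _ _ _ _ _ H => cn_le H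
  im := fun _ _ _ _ _ H _ p E hE => cn_im H p E hE
  dg := fun m g r => cn_dg M k m g r
  trn := fun _ _ _ _ _ H e he h1 => cn_trn H e he h1
  pnt := fun _ _ _ _ _ _ H h => cn_pnt H h
  add := fun _ _ _ _ _ H _ p _ _ hg L f hL => cn_add H p hg L f hL
  bas := fun _ _ _ _ _ H l hl => cn_bas H l hl
  zoom := fun _ _ _ D0 => ⟨D0, fun _ _ H _ hR z _ W hD hl hK hF hO =>
    ⟨z, W, hl, Eventually.of_forall fun _ => le_rfl, PLe.refl _, rfl, rfl, rfl, hK, hF, cn_rows H hR hK hF hO, fun h => h,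
      hD, fun _ _ _ h => h⟩⟩

theorem ent_DKU (M k : ℕ) : Ent (DKU M k) (CN M k) := fun _ _ _ s h _ ht => by
  obtain ⟨m, hm⟩ := h
  exact ⟨m, vis s.Q, ⟨NCR_vis.mpr hm, npt_vis s⟩, ht⟩

theorem ocl_DKU (M k m : ℕ) : Ocl M (DKU M k) (CN M k m) where
  le := fun _ _ _ _ H => cn_le H
  im := fun _ _ _ _ H _ p E hE => cn_im H p E hE
  pull := fun _ _ _ _ H _ p => cn_pull H p
  trn := fun _ _ _ _ H e he h1 => cn_trn H e he h1
  dg := fun g r => cn_dg M k m g r

theorem okd_DKU (M k : ℕ) (hM : 0 < M) : Okd M (DKU M k) (CN M k) (DKU M k) (fun _ m => CN M k m) where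
  le := fun _ _ _ _ _ _ H => cn_le H
  im := fun _ _ _ _ _ _ H _ p E hE => cn_im H p E hE
  dg := fun _ m g r => cn_dg M k m g r
  trn := fun _ _ _ _ _ _ H e he h1 => cn_trn H e he h1
  zoom := fun _ _ _ hw _ _ _ _ H _ _ _ he hc hce _ f hl _ _ hG => cn_zoom hM H hw he hc hce f hl hG
  tay := fun _ _ _ _ _ _ H _ _ h => cn_tay H h
  aux := ⟨DKU M k, fun _ m => CN M k m, Pool.Agent.Helper46.OKD.okA_DKU M k, fun _ m => ocl_DKU M k m,
    fun _ _ _ _ _ _ H => H, fun _ _ _ _ _ _ H _ => H, fun _ H => H⟩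
  prm := fun _ _ _ _ _ _ σ H _ _ _ _ _ => cn_prm H σ

/-- okD: MAX applies to the non concentration classes -/
theorem okM_DKU (M k : ℕ) (hM : 0 < M) : okM M (DKU M k) (DKU M k) := fun _ hn =>
  ⟨DKU M k, CN M k, fun _ m => CN M k m, okc_DKU M k, ent_DKU M k, okd_DKU M k hM, hn⟩

theorem okD : ∀ M k : ℕ, okM (M + 2) (DKU (M + 2) k) (DKU (M + 2) k) := fun M k => okM_DKU (M + 2) k (by omega)

end

end Pool.Agent.Helper59.OKD
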