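import Pool.Agent.Helper59.OKD.Ta
import Pool.Agent.Helper59.OKD.Nr

/-! NON CONCENTRATION OF THE TANGENTS is inherited by ZOOMS in the coordinates of a frame (also by base changes), with the
same constant. -/

set_option autoImplicit false

namespace Pool.Agent.Helper59.OKD

open Finset Filter Topology Matrix Pool.Agent.Helper69.RK Pool.Agent.Helper31.EC Pool.Agent.Helper31.EC.Sp
open Pool.Agent.Helper40.EL Pool.Agent.Helper89.LX Pool.Agent.Helper3.LF Pool.Agent.Helper84.MT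
open Pool.Agent.Helper49.MD Pool.Agent.Helper36.AM Pool.Agent.Helper37.DK2

noncomputable section

variable {S T : Sp} {M : ℕ} {E E' : ℕ → ℕ} {ι κ : Type}

theorem sub_sp' (l : Lab S) {K : ℕ → ℝ} (h : l.sp.Sub K) : S.Sub K := by
  refine ⟨h.1, h.2.congr fun k => ?_⟩
  have h1 : (l.sp.F k).n = (S.F k).n := (l k).hn
  rw [h1]

theorem sub_ovr' (l : Lab S) {e : ℝ} (he : 0 < e) {K : ℕ → ℝ} (h : (l.ovr e he).Sub K) : S.Sub K := by
  refine ⟨h.1, ?_⟩
  have h2 := h.2.const_mul e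
  rw [mul_zero] at h2
  refine h2.congr fun k => ?_
  rw [l.n_over e he k]
  have := (S.F k).pos
  field_simp

theorem typ_fin [Finite κ] (A : κ → ∀ k, (S.F k).Ω → Prop) (h : ∀ i, Typ (A i)) : Typ (fun k ω => ∀ i, A i k ω) := by
  cases nonempty_fintype κ
  classical
  have key : ∀ s : Finset κ, Typ (fun k ω => ∀ i ∈ s, A i k ω) := by
    intro s
    induction s using Finset.induction_on with
    | empty => exact Typ_true.mono (Eventually.of_forall fun k ω _ _ i hi => by simp at hi)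
    | insert a s ha ih =>
      refine ((h a).and ih).mono (Eventually.of_forall fun k ω _ g i hi => ?_)
      rw [Finset.mem_insert] at hi
      rcases hi with rfl | hi
      · exact g.1
      · exact g.2 i hi
  exact (key Finset.univ).mono (Eventually.of_forall fun k ω _ g i => g i (Finset.mem_univ i))

/-- the derivative of a chart at the point -/
theorem leaf_der {Q : S.VV M} (t : Leaf S Q E) : ∀ᶠ k in UF, ∀ ω, (S.F k).μ ω ≠ 0 → ∀ a j,
    HasDerivAt (fun x => t.F k ω (Function.update (t.Y.v k ω) a x) j) (ltan t k ω a j) (t.Y.v k ω a) := by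
  filter_upwards [t.alg, t.crF] with k h1 h2 ω hω a j
  obtain ⟨g, _, hg⟩ := (h1 ω hω).der 1 _ (h2 ω hω j) a
  have h3 := hg (t.Y.v k ω) (fun i => by rw [sub_self, abs_zero]; exact one_pos)
  exact h3.differentiableAt.hasDerivAt

/-- THE TANGENTS OF A ZOOM, one type -/
theorem lfr_tan {Q : S.VV M} (lf : Leaf S Q E) {l : Lab S} {La : Fin M → ℝ} (hLa : ∀ j, 0 ≤ La j) (f : Frm Q l La)
    {c e : ℝ} (he : 0 < e) {Q' : (l.ovr e he).VV M} (t : Leaf (l.ovr e he) Q' E') (hr : Lfr lf f c e he t) :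
    ∃ K : ℕ → ℝ, S.Sub K ∧ Typ (S := l.sp) fun k (w : (l k).T.Ω) => ∃ U : Fin M → ℝ, (∀ j, |U j| ≤ K k) ∧
      (∀ j, |Q.v k ((l k).p.π w) j - (MvPolynomial.eval U (f.P k w j) + U j)| ≤ K k * S.dl 1 k) ∧
      ∀ a : Fin lf.e, ∃ a' : Fin t.e, (∀ j, |ltan t k w a' j| ≤ K k) ∧ ∀ j, S.dl c k * ltan lf k ((l k).p.π w) a j =
        (tdf (f.P k w) (fun i => S.dl (La i) k) U *ᵥ ltan t k w a') j := by
  obtain ⟨h, o, h1, h2⟩ := hr
  obtain ⟨K₁, hK₁, b1⟩ := lf.pt
  obtain ⟨K₂, hK₂', b2⟩ := t.bd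
  obtain ⟨K₃, hK₃', b3⟩ := exists_ltan_bd t
  have hK₂ := sub_ovr' l he hK₂'
  have hK₃ := sub_ovr' l he hK₃'
  refine ⟨fun k => K₁ k + K₂ k + K₃ k, (hK₁.add hK₂).add hK₃, h2.mono ?_⟩
  filter_upwards [b1, b2, b3, leaf_der t, hK₁.1, hK₂.1, hK₃.1] with k c1 c2 c3 c4 k1 k2 k3
  intro (w : (l k).T.Ω) hw h3
  have hw' : ((l.ovr e he).F k).μ w ≠ 0 := hw
  have hd : ∀ j, 0 < S.dl (La j) k := fun j => S.dl_pos _ k
  have hd1 : ∀ j, S.dl (La j) k ≤ 1 := fun j => by
    rw [← S.dl_zero k]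
    exact S.dl_anti (hLa j) k
  have hY : (fun m => lf.Y.v k ((l k).p.π w) m) = fun m => o k w m + S.dl c k * t.Y.v k w (Fin.cast h.symm m) := by
    funext m
    exact h1 k w m
  have hYe : (fun m : Fin t.e => t.Y.v k w (Fin.cast h.symm (Fin.cast h m))) = t.Y.v k w := by
    funext m
    rfl
  refine ⟨fun i => S.dl (La i) k * t.F k w (t.Y.v k w) i, ?_, ?_, ?_⟩
  · intro j
    have h4 := c2 w hw' (t.Y.v k w) (fun i => by rw [sub_self, abs_zero]; exact zero_le_one) j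
    rw [abs_mul, abs_of_pos (hd j)]
    calc S.dl (La j) k * |t.F k w (t.Y.v k w) j| ≤ 1 * K₂ k := mul_le_mul (hd1 j) h4 (abs_nonneg _) zero_le_one
      _ ≤ _ := by linarith
  · intro j
    have h4 := c1 _ ((l k).p.supp w hw) j
    have h5 := h3 (fun m => t.Y.v k w (Fin.cast h.symm m)) j
    rw [hYe] at h5
    rw [← h5]
    have h6 : lf.F k ((l k).p.π w) (fun m => o k w m + S.dl c k * t.Y.v k w (Fin.cast h.symm m)) j =
        lf.F k ((l k).p.π w) (lf.Y.v k ((l k).p.π w)) j := by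
      rw [← hY]
    rw [h6]
    refine h4.trans (mul_le_mul_of_nonneg_right ?_ (S.dl_pos 1 k).le)
    linarith
  · intro a
    refine ⟨Fin.cast h.symm a, fun j => (c3 w hw' _ j).trans (by linarith), fun j => ?_⟩
    have h4 := tan_rel (P := f.P k w) (f := fun y j => lf.F k ((l k).p.π w) y j)
      (g := fun y j => t.F k w (fun m => y (Fin.cast h m)) j) (o := o k w) (c := S.dl c k)
      (d := fun i => S.dl (La i) k) h3 (fun m => t.Y.v k w (Fin.cast h.symm m)) a (ltan t k w (Fin.cast h.symm a))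
      (fun j => by
        have h5 := c4 w hw' (Fin.cast h.symm a) j
        refine h5.congr_of_eventuallyEq (Eventually.of_forall fun x => ?_)
        show t.F k w _ j = t.F k w _ j
        congr 1
        funext m
        by_cases hm : m = Fin.cast h.symm a
        · subst hm
          rw [Function.update_self]
          exact Function.update_self _ _ _
        · rw [Function.update_of_ne hm]
          exact Function.update_of_ne (fun h6 => hm (by rw [← h6]; rfl)) _ _) j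
    rw [hYe] at h4
    rw [← h4, ← hY, ← h1 k w a]
    rfl

/-- representatives of the classes in the support -/
theorem exists_rep {Ω : Type} (μ : Ω → ℝ) (C : Setoid Ω) :
    ∃ r : Ω → Ω, (∀ w, μ w ≠ 0 → μ (r w) ≠ 0 ∧ C w (r w)) ∧ ∀ w w', C w w' → r w = r w' := by
  classical
  set g : Quotient C → Ω := fun q => if h : ∃ w₀, μ w₀ ≠ 0 ∧ Quotient.mk C w₀ = q then h.choose else q.out with hg
  refine ⟨fun w => g (Quotient.mk C w), ?_, ?_⟩
  · intro w hw
    have h1 : ∃ w₀, μ w₀ ≠ 0 ∧ Quotient.mk C w₀ = Quotient.mk C w := ⟨w, hw, rfl⟩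
    have e1 : g (Quotient.mk C w) = h1.choose := by
      rw [hg]
      exact dif_pos h1
    show μ (g (Quotient.mk C w)) ≠ 0 ∧ C w (g (Quotient.mk C w))
    rw [e1]
    exact ⟨h1.choose_spec.1, C.symm (Quotient.exact h1.choose_spec.2)⟩
  · intro w w' hww'
    show g (Quotient.mk C w) = g (Quotient.mk C w')
    rw [Quotient.sound hww']

theorem sub_lc {K V : ℕ → ℝ} (D : ℕ) (hK : S.Sub K) (hV : S.Sub V) : S.Sub fun n => lc M D (K n) (V n) :=
  (S.Sub_const (by positivity)).mul (hK.mul ((S.Sub_const (Nat.cast_nonneg D)).mul (Sub_pow' hV D)))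

variable {k : ℕ} {h₀ : ℝ} {s : MSys S M E ι} {R : ∀ n, Setoid (S.F n).Ω}

/-- ZOOMS: non concentration given the resolution, same constant. The resolution of the zoom is the one of the system, up to
`o(n)` bits -/
theorem NCR.zoom [Finite ι] (h0 : 0 < h₀) (H : NCR k h₀ s R)
    (hQ : Nul S fun n => h (fc (Setoid.ker (s.Q.cellv 1 n)) : FL (S.F n)) (fc (R n))) (l : Lab S)
    (hl : Nul S fun n => (l n).leak (fc (R n))) {La : Fin M → ℝ} (f : Frm s.Q l La) {c e : ℝ} (hc : 0 ≤ c) (he : 0 < e)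
    (he1 : e ≤ 1) (hcL : ∀ j, c ≤ La j) (hLe : ∀ j, La j + e ≤ 1) {κ₀ : ℕ}
    (hκ : ∀ n ω j, (f.P n ω j).totalDegree ≤ κ₀) {t : MSys (l.ovr e he) M E' ι}
    (ht : ∀ i, Lfr (s.lf i) f c e he (t.lf i)) {R' : ∀ n, Setoid ((l.ovr e he).F n).Ω}
    (hR' : Nul S fun n => h (fc (R' n) : FL ((l n).ovr e he)) ((l n).up e he (fc (R n)))) : NCR k h₀ t R' := by
  have hLa : ∀ j, 0 ≤ La j := fun j => hc.trans (hcL j)
  obtain ⟨Kc, hKc, c1⟩ := f.bd
  obtain ⟨Kp, hKp, c2⟩ := f.pt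
  obtain ⟨Kx, hKx', c3⟩ := f.X.bd
  have hKx := sub_sp' l hKx'
  choose K₀ hK₀ T₀ using fun i => lfr_tan (s.lf i) hLa f he (t.lf i) (ht i)
  cases nonempty_fintype ι
  set Kt : ℕ → ℝ := fun n => ∑ i, K₀ i n with hKt
  have sKt : S.Sub Kt := sub_sum S _ _ fun i _ => hK₀ i
  have hKi : ∀ᶠ n in UF, ∀ i, 0 ≤ K₀ i n := eventually_all.mpr fun i => (hK₀ i).1
  set V : ℕ → ℝ := fun n => 1 + (Kx n + Kt n) with hV
  have sV : S.Sub V := (S.Sub_const zero_le_one).add (hKx.add sKt)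
  set L₁ : ℕ → ℝ := fun n => lc M κ₀ (Kc n) (V n) with hL₁
  have sL₁ : S.Sub L₁ := sub_lc κ₀ hKc sV
  set L₂ : ℕ → ℝ := fun n => lc M κ₀ (κ₀ * Kc n) (V n) with hL₂
  have sL₂ : S.Sub L₂ := sub_lc κ₀ ((S.Sub_const (Nat.cast_nonneg κ₀)).mul hKc) sV
  set A₁ : ℕ → ℝ := fun n => (L₁ n + 1) ^ M * (Kt n + Kp n + 1) with hA₁
  have sA₁ : S.Sub A₁ := (Sub_pow' (sL₁.add (S.Sub_const zero_le_one)) M).mul
    ((sKt.add hKp).add (S.Sub_const zero_le_one))
  set A₂ : ℕ → ℝ := fun n => (M * L₁ n + 1) ^ M * (M * (L₂ n * A₁ n * Kt n)) with hA₂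
  have sM : S.Sub fun _ => (M : ℝ) := S.Sub_const (Nat.cast_nonneg M)
  have sA₂ : S.Sub A₂ := (Sub_pow' ((sM.mul sL₁).add (S.Sub_const zero_le_one)) M).mul
    (sM.mul ((sL₂.mul sA₁).mul sKt))
  set K : ℕ → ℝ := fun n => A₂ n + M * (L₁ n + 1) with hK
  have sK : S.Sub K := sA₂.add (sM.mul (sL₁.add (S.Sub_const zero_le_one)))
  -- the representatives
  set C : ∀ n, Setoid (l n).T.Ω := fun n =>
    (l n).T.Z ⊓ ((l n).V ⊓ Setoid.comap (l n).p.π (Setoid.ker (s.Q.cellv 1 n))) with hC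
  choose rp r1 r2 using fun n => exists_rep (l n).T.μ (C n)
  set Uh : ∀ n, (l n).T.Ω → Fin M → ℝ := fun n w i => S.dl (La i) n * f.X.v n (rp n w) i with hUh
  set B : ∀ n, (l n).T.Ω → Matrix (Fin M) (Fin M) ℝ := fun n w =>
    S.dl c n • (tdf (f.P n w) (fun i => S.dl (La i) n) (Uh n w))⁻¹ with hB
  set R'' : ∀ n, Setoid ((l.ovr e he).F n).Ω := fun n =>
    (R' n ⊓ (Setoid.comap (l n).p.π (Setoid.ker (s.Q.cellv 1 n)) : Setoid (l n).T.Ω) : Setoid (l n).T.Ω) with hR''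
  have sR'' : Nul S fun n => h (fc (R'' n) : FL ((l n).ovr e he)) ((l n).up e he (fc (R n))) := by
    refine (hR'.add hQ).of_le (Eventually.of_forall fun n => h_nonneg _ _) (Eventually.of_forall fun n => ?_)
    have e1 : (fc (R'' n) : FL ((l n).ovr e he)) = fc (R' n) ⊔ (l n).up e he (fc (Setoid.ker (s.Q.cellv 1 n))) := rfl
    rw [e1]
    refine (h_sup_le _ _ _).trans (add_le_add le_rfl ?_)
    rw [(l n).h_up e he]
    refine (h_anti le_sup_left).trans (le_of_eq ?_)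
    exact (l n).p.h_map _ _
  have hd : ∀ n (j : Fin M), 0 < S.dl (La j) n := fun n j => S.dl_pos _ n
  have hd1 : ∀ n (j : Fin M), S.dl (La j) n ≤ 1 := fun n j => by
    rw [← S.dl_zero n]
    exact S.dl_anti (hLa j) n
  have hdc : ∀ n (j : Fin M), S.dl (La j) n ≤ S.dl c n := fun n j => S.dl_anti (hcL j) n
  have hUhV : ∀ᶠ n in UF, ∀ w, (l n).T.μ w ≠ 0 → ∀ i, |Uh n w i| ≤ V n := by
    filter_upwards [c3, sKt.1] with n a1 a2 w hw i
    have h3 : |f.X.v n (rp n w) i| ≤ Kx n := a1 (rp n w) (r1 n w hw).1 i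
    show |S.dl (La i) n * f.X.v n (rp n w) i| ≤ _
    rw [abs_mul, abs_of_pos (hd n i)]
    calc S.dl (La i) n * |f.X.v n (rp n w) i| ≤ 1 * Kx n := mul_le_mul (hd1 n i) h3 (abs_nonneg _) zero_le_one
      _ ≤ V n := by
        rw [hV]
        show 1 * Kx n ≤ 1 + (Kx n + Kt n)
        linarith
  have H' : NCR k h₀ t R'' := by
    refine H.over h0 l he he1 hl sR'' B ?_ sK ?_ ?_
    · -- known to the label and to the cell
      filter_upwards [f.fn] with n a1 w w' b1 b2 b3 b4 _ b6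
      have e1 : rp n w = rp n w' := r2 n w w' ⟨b3, b4, b6.2⟩
      have e2 : f.P n w = f.P n w' := a1 w w' b1 b2 b3 b4
      show S.dl c n • (tdf (f.P n w) (fun i => S.dl (La i) n) (Uh n w))⁻¹ =
        S.dl c n • (tdf (f.P n w') (fun i => S.dl (La i) n) (Uh n w'))⁻¹
      rw [e2]
      congr 3
      funext i
      show S.dl (La i) n * f.X.v n (rp n w) i = S.dl (La i) n * f.X.v n (rp n w') i
      rw [e1]
    · -- lower bound
      filter_upwards [c1, hUhV, hKc.1, sV.1, sKt.1, hKx.1, sA₂.1, sL₁.1] with n a1 a2 a3 a4 a5 a6 a7 a8 w hw b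
      have hV1 : 1 ≤ V n := by
        show 1 ≤ 1 + (Kx n + Kt n)
        linarith
      have h3 := tdf_low (P := f.P n w) (f.tri n w) (D := κ₀) (fun j => hκ n w j) a3 (fun j a => a1 w hw j a) hV1
        (U := Uh n w) (a2 w hw) (d := fun i => S.dl (La i) n) (hd n) (S.dl_pos c n) (hdc n) b
      refine h3.trans (mul_le_mul_of_nonneg_right ?_ (dps_nonneg _))
      apply pow_le_pow_left₀ (by positivity)
      show M * (L₁ n + 1) ≤ A₂ n + M * (L₁ n + 1)
      linarith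
    · -- the tangents
      refine (typ_fin (S := l.sp) _ T₀).mono ?_
      filter_upwards [c1, c2, hUhV, hKc.1, sKt.1, hKx.1, sA₂.1, sL₁.1, sL₂.1, sA₁.1, hKi, hKp.1, f.fn] with
        n a1 a2 a3 a4 a5 a6 a7 a8 a9 a10 a11 a12 a13
      intro (w : (l n).T.Ω) hw hT a
      obtain ⟨i, a⟩ := a
      obtain ⟨U, u1, u2, u3⟩ := hT i
      obtain ⟨a', u4, u5⟩ := u3 a
      refine ⟨⟨i, a'⟩, fun j => ?_⟩
      have hV1 : 1 ≤ V n := by
        show 1 ≤ 1 + (Kx n + Kt n)
        linarith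
      have hKin : K₀ i n ≤ Kt n := Finset.single_le_sum (f := fun i => K₀ i n) (fun i _ => a11 i) (Finset.mem_univ i)
      have hdl1 := S.dl_pos 1 n
      obtain ⟨q1, q2⟩ := r1 n w hw
      have q3 : f.P n w = f.P n (rp n w) := a13 w (rp n w) hw q1 q2.1 q2.2.1
      have hcell : ∀ j, |s.Q.v n ((l n).p.π w) j - s.Q.v n ((l n).p.π (rp n w)) j| ≤ S.dl 1 n :=
        fun j => s.Q.cellv_close 1 n _ _ q2.2.2 j
      have hv : ∀ j, |(MvPolynomial.eval U (f.P n w j) + U j) -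
          (MvPolynomial.eval (Uh n w) (f.P n w j) + Uh n w j)| ≤ (Kt n + Kp n + 1) * S.dl 1 n := by
        intro j
        have g1 := u2 j
        have g2 : |s.Q.v n ((l n).p.π (rp n w)) j - (MvPolynomial.eval (Uh n w) (f.P n w j) + Uh n w j)| ≤
            Kp n * S.dl 1 n := by
          rw [q3]
          exact a2 (rp n w) q1 j
        have g3 := hcell j
        have g4 : K₀ i n * S.dl 1 n ≤ Kt n * S.dl 1 n := mul_le_mul_of_nonneg_right hKin hdl1.le
        rw [abs_le] at g1 g2 g3 ⊢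
        constructor
        · nlinarith [g1.1, g1.2, g2.1, g2.2, g3.1, g3.2]
        · nlinarith [g1.1, g1.2, g2.1, g2.2, g3.1, g3.2]
      have hUU := box_close (P := f.P n w) (f.tri n w) (D := κ₀) (fun j => hκ n w j) a4 (fun j a => a1 w hw j a) hV1
        (by positivity) (U := U) (U' := Uh n w) (fun j => (u1 j).trans (by
          show K₀ i n ≤ 1 + (Kx n + Kt n)
          linarith)) (a3 w hw) hv
      have hfin := tan_close (P := f.P n w) (f.tri n w) (D := κ₀) (fun j => hκ n w j) a4 (fun j a => a1 w hw j a) hV1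
        (by positivity) (U := U) (U' := Uh n w) (fun j => (u1 j).trans (by
          show K₀ i n ≤ 1 + (Kx n + Kt n)
          linarith)) (a3 w hw) hUU (d := fun i => S.dl (La i) n) (hd n) (hd1 n) (c := S.dl c n)
          (t := ltan (s.lf i) n ((l n).p.π w) a) (t' := ltan (t.lf i) n w a') (K' := Kt n) a5
          (fun j => (u4 j).trans hKin) u5 j
      refine hfin.trans ?_
      have w1 : S.dl 1 n / S.dl (La j) n ≤ S.dl (e / 2) n := by
        rw [div_le_iff₀ (hd n j), ← S.dl_add]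
        refine S.dl_anti ?_ n
        have := hLe j
        linarith
      have w2 : (M * lc M κ₀ (Kc n) (V n) + 1) ^ M * (M * (lc M κ₀ (κ₀ * Kc n) (V n) *
          ((lc M κ₀ (Kc n) (V n) + 1) ^ M * ((Kt n + Kp n + 1) * S.dl 1 n)) * Kt n)) = A₂ n * S.dl 1 n := by
        show _ = (M * lc M κ₀ (Kc n) (V n) + 1) ^ M * (M * (lc M κ₀ (κ₀ * Kc n) (V n) *
          ((lc M κ₀ (Kc n) (V n) + 1) ^ M * (Kt n + Kp n + 1)) * Kt n)) * S.dl 1 n
        ring
      rw [w2, mul_div_assoc]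
      refine mul_le_mul ?_ w1 (div_nonneg hdl1.le (hd n j).le) ?_
      · show A₂ n ≤ A₂ n + M * (L₁ n + 1)
        have : 0 ≤ (M : ℝ) * (L₁ n + 1) := by positivity
        linarith
      · show 0 ≤ A₂ n + M * (L₁ n + 1)
        positivity
  exact H'.res h0 (Eventually.of_forall fun n w w' _ _ _ hw => hw.1)

end

end Pool.Agent.Helper59.OKD
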