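import Pool.Agent.Helper59.OKD.Tb
import Pool.Agent.Helper59.OKD.Zm
import Pool.Agent.Helper7.RD.Sys

/-! NON CONCENTRATION OF THE TANGENTS is inherited by ROW ZOOMS whose Jacobian at the point has an inverse of size
`2 ^ (-c n)` and does not vary at the finest resolution. -/

set_option autoImplicit false

namespace Pool.Agent.Helper59.OKD

open Finset Filter Topology Matrix Pool.Agent.Helper69.RK Pool.Agent.Helper31.EC Pool.Agent.Helper31.EC.Sp
open Pool.Agent.Helper40.EL Pool.Agent.Helper89.LX Pool.Agent.Helper3.LF Pool.Agent.Helper84.MT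
open Pool.Agent.Helper49.MD Pool.Agent.Helper36.AM Pool.Agent.Helper37.DK2
open Pool.Agent.Helper7.GZ (jac)
open Pool.Agent.Helper7.RD (RW)

noncomputable section

variable {S T : Sp} {M : ℕ} {E E' : ℕ → ℕ} {ι κ : Type}

/-- a tame function times an exponentially small one is small -/
theorem sub_dl_small {K : ℕ → ℝ} (hK : S.Sub K) {u : ℝ} (hu : 0 < u) {x : ℝ} (hx : 0 < x) :
    ∀ᶠ n in UF, K n * S.dl u n ≤ x := by
  have h1 : S.Sub fun n => x⁻¹ * K n := (S.Sub_const (inv_pos.mpr hx).le).mul hK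
  filter_upwards [sub_le_rpow h1 hu] with n hn
  have h2 : 0 < S.dl u n := S.dl_pos u n
  have h3 : S.dl u n * 2 ^ (u * (S.F n).n) = 1 := by
    show (2 : ℝ) ^ (-(u * (S.F n).n)) * _ = 1
    rw [← Real.rpow_add two_pos, neg_add_cancel, Real.rpow_zero]
  have h4 := mul_le_mul_of_nonneg_right hn h2.le
  rw [mul_comm (2 ^ (u * (S.F n).n) : ℝ), h3] at h4
  have h5 : x⁻¹ * K n * S.dl u n = x⁻¹ * (K n * S.dl u n) := by ring
  rw [h5, inv_mul_le_iff₀ hx, mul_one] at h4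
  exact h4

variable {k : ℕ} {h₀ : ℝ} {s : MSys S M E ι} {R : ∀ n, Setoid (S.F n).Ω}

/-- the Jacobian of the rows at the point -/
def Jq (z : RW s M) (n : ℕ) (w : (z.Z.l n).T.Ω) : Matrix (Fin M) (Fin M) ℝ :=
  jac (z.R.p n w) (s.Q.v n ((z.Z.l n).p.π w))

/-- the Jacobian of the rows has a tame inverse, in the unit of the window -/
def JInv (z : RW s M) : Prop := ∃ K : ℕ → ℝ, S.Sub K ∧ Typ (S := z.Z.l.sp) fun n (w : (z.Z.l n).T.Ω) =>
  Jq z n w * (Jq z n w)⁻¹ = 1 ∧ ∀ r i, |(Jq z n w)⁻¹ r i| ≤ K n * S.dl z.Z.c n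

/-- the Jacobian of the rows does not vary at the finest resolution -/
def JVar (z : RW s M) : Prop := ∀ L : ℕ → ℝ, S.Sub L → ∃ K : ℕ → ℝ, S.Sub K ∧
  Typ (S := z.Z.l.sp) fun n (w : (z.Z.l n).T.Ω) => ∀ y : Fin M → ℝ,
    (∀ i, |y i - s.Q.v n ((z.Z.l n).p.π w) i| ≤ L n * S.dl 1 n) → ∀ j r,
      |((jac (z.R.p n w) y - Jq z n w) * (Jq z n w)⁻¹) j r| ≤ K n * S.dl (z.Z.u / 2) n

/-- the tangents of the row zoom -/
def RTan (z : RW s M) (i : ι) : Prop := ∃ K : ℕ → ℝ, S.Sub K ∧ Typ (S := z.Z.l.sp) fun n (w : (z.Z.l n).T.Ω) =>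
  ∀ a : Fin (s.lf i).e, ∃ a' : Fin (z.sys.lf i).e, ∀ j, |S.dl z.Z.c n * (jac (z.R.p n w)
    ((s.lf i).F n ((z.Z.l n).p.π w) ((s.lf i).Y.v n ((z.Z.l n).p.π w))) *ᵥ ltan (s.lf i) n ((z.Z.l n).p.π w) a) j -
      ltan (z.sys.lf i) n w a' j| ≤ K n * S.dl z.Z.u n

/-- ROW ZOOMS: non concentration given the resolution, same constant -/
theorem NCR.rows [Finite ι] (h0 : 0 < h₀) (H : NCR k h₀ s R)
    (hQ : Nul S fun n => h (fc (Setoid.ker (s.Q.cellv 1 n)) : FL (S.F n)) (fc (R n))) (z : RW s M)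
    (hl : Nul S fun n => (z.Z.l n).leak (fc (R n))) (hI : JInv z) (hV : JVar z) (hT : ∀ i, RTan z i)
    {R' : ∀ n, Setoid (z.Z.sp.F n).Ω}
    (hR' : Nul S fun n => h (fc (R' n) : FL ((z.Z.l n).ovr z.Z.u z.Z.hu)) ((z.Z.l n).up z.Z.u z.Z.hu (fc (R n)))) :
    NCR k h₀ z.sys R' := by
  have hu : 0 < z.Z.u := z.Z.hu
  have hu1 : z.Z.u ≤ 1 := by
    have := z.Z.h0
    have := z.Z.h1
    linarith
  obtain ⟨K₁, sK₁, T₁⟩ := hI
  choose Kp sKp bp using fun i => (s.lf i).pt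
  cases nonempty_fintype ι
  set L : ℕ → ℝ := fun n => 1 + ∑ i, Kp i n with hL
  have sL : S.Sub L := (S.Sub_const zero_le_one).add (sub_sum S _ _ fun i _ => sKp i)
  have hKp : ∀ᶠ n in UF, ∀ i, 0 ≤ Kp i n := eventually_all.mpr fun i => (sKp i).1
  obtain ⟨K₂, sK₂, T₂⟩ := hV L sL
  choose Kt sKt T₃ using hT
  set K₃ : ℕ → ℝ := fun n => ∑ i, Kt i n with hK₃
  have sK₃ : S.Sub K₃ := sub_sum S _ _ fun i _ => sKt i
  have hKt : ∀ᶠ n in UF, ∀ i, 0 ≤ Kt i n := eventually_all.mpr fun i => (sKt i).1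
  obtain ⟨K₄, sK₄', b₄⟩ := exists_tan_bd z.sys
  have sK₄ : S.Sub K₄ := sub_ovr' z.Z.l z.Z.hu sK₄'
  set K : ℕ → ℝ := fun n => 1 + 2 * (M * K₁ n) + (K₃ n + 2 * K₂ n * (2 * M * (K₄ n + K₃ n))) with hK
  have sM : S.Sub fun _ => (M : ℝ) := S.Sub_const (Nat.cast_nonneg M)
  have s2 : S.Sub fun _ => (2 : ℝ) := S.Sub_const (by norm_num)
  have sK : S.Sub K := ((S.Sub_const zero_le_one).add (s2.mul (sM.mul sK₁))).add
    (sK₃.add ((s2.mul sK₂).mul ((s2.mul sM).mul (sK₄.add sK₃))))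
  -- the representatives
  set C : ∀ n, Setoid (z.Z.l n).T.Ω := fun n =>
    (z.Z.l n).T.Z ⊓ ((z.Z.l n).V ⊓ Setoid.comap (z.Z.l n).p.π (Setoid.ker (s.Q.cellv 1 n))) with hC
  choose rp r1 r2 using fun n => exists_rep (z.Z.l n).T.μ (C n)
  classical
  set Gd : ∀ n, Matrix (Fin M) (Fin M) ℝ → Prop := fun n B =>
    ∀ b : Fin M → ℝ, b ⬝ᵥ b ≤ K n ^ 2 * ((b ᵥ* B) ⬝ᵥ (b ᵥ* B)) with hGd
  set B₀ : ∀ n, (z.Z.l n).T.Ω → Matrix (Fin M) (Fin M) ℝ := fun n w => S.dl z.Z.c n • Jq z n (rp n w) with hB₀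
  set B : ∀ n, (z.Z.l n).T.Ω → Matrix (Fin M) (Fin M) ℝ := fun n w => if Gd n (B₀ n w) then B₀ n w else 1 with hB
  set R'' : ∀ n, Setoid (z.Z.sp.F n).Ω := fun n =>
    (R' n ⊓ (Setoid.comap (z.Z.l n).p.π (Setoid.ker (s.Q.cellv 1 n)) : Setoid (z.Z.l n).T.Ω) :
      Setoid (z.Z.l n).T.Ω) with hR''
  have sR'' : Nul S fun n => h (fc (R'' n) : FL ((z.Z.l n).ovr z.Z.u z.Z.hu))
      ((z.Z.l n).up z.Z.u z.Z.hu (fc (R n))) := by
    refine (hR'.add hQ).of_le (Eventually.of_forall fun n => h_nonneg _ _) (Eventually.of_forall fun n => ?_)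
    have e1 : (fc (R'' n) : FL ((z.Z.l n).ovr z.Z.u z.Z.hu)) =
        fc (R' n) ⊔ (z.Z.l n).up z.Z.u z.Z.hu (fc (Setoid.ker (s.Q.cellv 1 n))) := rfl
    rw [e1]
    refine (h_sup_le _ _ _).trans (add_le_add le_rfl ?_)
    rw [(z.Z.l n).h_up z.Z.u z.Z.hu]
    refine (h_anti le_sup_left).trans (le_of_eq ?_)
    exact (z.Z.l n).p.h_map _ _
  have H' : NCR k h₀ z.sys R'' := by
    refine H.over h0 z.Z.l z.Z.hu hu1 hl sR'' B ?_ sK ?_ ?_
    · -- known to the label and to the cell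
      refine Eventually.of_forall fun n w w' _ _ b3 b4 _ b6 => ?_
      have e1 : rp n w = rp n w' := r2 n w w' ⟨b3, b4, b6.2⟩
      have e2 : B₀ n w = B₀ n w' := by
        show S.dl z.Z.c n • Jq z n (rp n w) = S.dl z.Z.c n • Jq z n (rp n w')
        rw [e1]
      show (if Gd n (B₀ n w) then B₀ n w else 1) = if Gd n (B₀ n w') then B₀ n w' else 1
      rw [e2]
    · -- lower bound
      filter_upwards [sK₁.1, sK₂.1, sK₃.1, sK₄.1] with n a1 a2 a3 a4 w _ b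
      show b ⬝ᵥ b ≤ K n ^ 2 * ((b ᵥ* (if Gd n (B₀ n w) then B₀ n w else 1)) ⬝ᵥ
        (b ᵥ* (if Gd n (B₀ n w) then B₀ n w else 1)))
      by_cases hg : Gd n (B₀ n w)
      · rw [if_pos hg]
        exact hg b
      · rw [if_neg hg, Matrix.vecMul_one]
        have hbb : 0 ≤ b ⬝ᵥ b := Finset.sum_nonneg fun i _ => mul_self_nonneg (b i)
        have hK1 : 1 ≤ K n := by
          show 1 ≤ 1 + 2 * (M * K₁ n) + (K₃ n + 2 * K₂ n * (2 * M * (K₄ n + K₃ n)))
          have : 0 ≤ 2 * (M * K₁ n) + (K₃ n + 2 * K₂ n * (2 * M * (K₄ n + K₃ n))) := by positivity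
          linarith
        exact le_mul_of_one_le_left hbb (one_le_pow₀ hK1)
    · -- the tangents
      refine (((typ_fin (S := z.Z.l.sp) _ T₃).and T₁).and T₂).mono ?_
      have hsm := sub_dl_small (S := S) sK₂ (u := z.Z.u / 2) (by linarith)
        (show (0 : ℝ) < 1 / (2 * M + 1) by positivity)
      filter_upwards [sK₁.1, sK₂.1, sK₃.1, sK₄.1, hKt, hKp, eventually_all.mpr bp, b₄, hsm, z.R.fn] with
        n a1 a2 a3 a4 a5 a6 a7 a8 a9 a10
      intro (w : (z.Z.l n).T.Ω) hw hT a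
      obtain ⟨⟨t1, t2, t3⟩, t4⟩ := hT
      obtain ⟨i, a⟩ := a
      obtain ⟨a', u1⟩ := t1 i a
      refine ⟨⟨i, a'⟩, ?_⟩
      obtain ⟨q1, q2⟩ := r1 n w hw
      set ε : ℝ := K₂ n * S.dl (z.Z.u / 2) n with hε
      have hε0 : 0 ≤ ε := mul_nonneg a2 (S.dl_pos _ n).le
      have hε1 : ε * (2 * M) ≤ 1 := by
        have h3 : ε * (2 * M) ≤ 1 / (2 * M + 1) * (2 * M) := mul_le_mul_of_nonneg_right a9 (by positivity)
        have h4 : 1 / (2 * (M : ℝ) + 1) * (2 * M) ≤ 1 := by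
          rw [one_div, inv_mul_le_iff₀ (by positivity)]
          linarith
        linarith
      have hdl1 := S.dl_pos 1 n
      have hLp : ∀ i, 0 ≤ Kp i n := a6
      have hL1 : 1 ≤ L n := by
        show 1 ≤ 1 + ∑ i, Kp i n
        have : 0 ≤ ∑ i, Kp i n := Finset.sum_nonneg fun i _ => hLp i
        linarith
      have hLi : Kp i n ≤ L n := by
        have h3 : Kp i n ≤ ∑ i, Kp i n := Finset.single_le_sum (f := fun i => Kp i n) (fun i _ => hLp i)
          (Finset.mem_univ i)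
        show Kp i n ≤ 1 + ∑ i, Kp i n
        linarith
      -- the two matrices
      have hp : z.R.p n (rp n w) = z.R.p n w := (a10 w (rp n w) hw q1 q2.1 q2.2.1).symm
      have v1 : ∀ j r, |((jac (z.R.p n w) ((s.lf i).F n ((z.Z.l n).p.π w) ((s.lf i).Y.v n ((z.Z.l n).p.π w))) -
          Jq z n w) * (Jq z n w)⁻¹) j r| ≤ ε := by
        refine t4 _ fun j => ?_
        have h3 := a7 i _ ((z.Z.l n).p.supp w hw) j
        rw [abs_sub_comm] at h3
        exact h3.trans (mul_le_mul_of_nonneg_right hLi hdl1.le)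
      have v2 : ∀ j r, |((Jq z n (rp n w) - Jq z n w) * (Jq z n w)⁻¹) j r| ≤ ε := by
        have h3 : Jq z n (rp n w) = jac (z.R.p n w) (s.Q.v n ((z.Z.l n).p.π (rp n w))) := by
          unfold Jq
          rw [hp]
        rw [h3]
        refine t4 _ fun j => ?_
        have h4 := s.Q.cellv_close 1 n _ _ q2.2.2 j
        rw [abs_sub_comm] at h4
        refine h4.trans ?_
        calc S.dl 1 n = 1 * S.dl 1 n := (one_mul _).symm
          _ ≤ L n * S.dl 1 n := mul_le_mul_of_nonneg_right hL1 hdl1.le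
      have hJ1 : (Jq z n w)⁻¹ * Jq z n w = 1 := mul_eq_one_comm.mp t2
      have hgd : Gd n (B₀ n w) := by
        intro b
        have h3 := row_low t2 hJ1 hε0 hε1 v2 (S.dl_pos z.Z.c n) t3 b
        refine h3.trans (mul_le_mul_of_nonneg_right ?_ (Finset.sum_nonneg fun j _ => mul_self_nonneg _))
        apply pow_le_pow_left₀ (by positivity)
        show 2 * (M * K₁ n) ≤ 1 + 2 * (M * K₁ n) + (K₃ n + 2 * K₂ n * (2 * M * (K₄ n + K₃ n)))
        have : 0 ≤ K₃ n + 2 * K₂ n * (2 * M * (K₄ n + K₃ n)) := by positivity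
        linarith
      intro j
      have hKti : Kt i n ≤ K₃ n := Finset.single_le_sum (f := fun i => Kt i n) (fun i _ => a5 i) (Finset.mem_univ i)
      have h3 := row_step (J := Jq z n w) (J₂ := Jq z n (rp n w)) hJ1 hε0 hε1 v1 v2 (c := S.dl z.Z.c n)
        (T := ltan (s.lf i) n ((z.Z.l n).p.π w) a) (T' := ltan (z.sys.lf i) n w a') (err := K₃ n * S.dl z.Z.u n)
        (K₃ := K₄ n) (fun j => (u1 j).trans (mul_le_mul_of_nonneg_right hKti (S.dl_pos _ n).le))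
        (fun j => a8 w hw ⟨i, a'⟩ j) j
      have e1 : (B n w *ᵥ mtan (ob s n) ((z.Z.l n).p.π w) ⟨i, a⟩) j - mtan (ob z.sys n) w ⟨i, a'⟩ j =
          ((S.dl z.Z.c n • Jq z n (rp n w)) *ᵥ ltan (s.lf i) n ((z.Z.l n).p.π w) a) j -
            ltan (z.sys.lf i) n w a' j := by
        have e2 : B n w = B₀ n w := if_pos hgd
        rw [e2]
        rfl
      refine (le_of_eq (congrArg abs e1)).trans (h3.trans ?_)
      have hd1 : S.dl z.Z.u n ≤ S.dl (z.Z.u / 2) n := S.dl_anti (by linarith) n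
      have hd2 : S.dl z.Z.u n ≤ 1 := by
        rw [← S.dl_zero n]
        exact S.dl_anti hu.le n
      have hd3 := S.dl_pos (z.Z.u / 2) n
      have h4 : K₃ n * S.dl z.Z.u n ≤ K₃ n * S.dl (z.Z.u / 2) n := mul_le_mul_of_nonneg_left hd1 a3
      have h5 : K₃ n * S.dl z.Z.u n ≤ K₃ n := mul_le_of_le_one_right a3 hd2
      have h6 : 2 * ε * (2 * M * (K₄ n + K₃ n * S.dl z.Z.u n)) ≤ 2 * ε * (2 * M * (K₄ n + K₃ n)) := by
        apply mul_le_mul_of_nonneg_left _ (by positivity)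
        apply mul_le_mul_of_nonneg_left _ (by positivity)
        linarith
      have h7 : K₃ n * S.dl (z.Z.u / 2) n + 2 * ε * (2 * M * (K₄ n + K₃ n)) =
          (K₃ n + 2 * K₂ n * (2 * M * (K₄ n + K₃ n))) * S.dl (z.Z.u / 2) n := by
        rw [hε]
        ring
      have h8 : (K₃ n + 2 * K₂ n * (2 * M * (K₄ n + K₃ n))) * S.dl (z.Z.u / 2) n ≤ K n * S.dl (z.Z.u / 2) n := by
        apply mul_le_mul_of_nonneg_right _ hd3.le
        show K₃ n + 2 * K₂ n * (2 * M * (K₄ n + K₃ n)) ≤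
          1 + 2 * (M * K₁ n) + (K₃ n + 2 * K₂ n * (2 * M * (K₄ n + K₃ n)))
        have : 0 ≤ 2 * (M * K₁ n) := by positivity
        linarith
      linarith
  exact H'.res h0 (Eventually.of_forall fun n w w' _ _ _ hw => hw.1)

end

end Pool.Agent.Helper59.OKD
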