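import Pool.Agent.Helper59.OKD.Ng
import Pool.Agent.Helper59.OKD.Rwz
import Pool.Agent.Helper8.CPY.Trp
import Pool.Agent.Helper3.RT.Tan
import Pool.Agent.Helper37.DK2.Nst
import Pool.Agent.Helper37.OKD.Jv
import Pool.Agent.Helper37.OKD.Tay

/-! THE CLASSES `CN M k m` of the non concentration classes `DKU M k`: non concentration (constant `1 / (m + 1)`) given a
resolution which knows the cells of the point, with a transversal pair of types. Closure properties (fields of `Okc`, `Okd`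
of `MX/St`). -/

set_option autoImplicit false

namespace Pool.Agent.Helper59.OKD

open Finset Filter Topology Matrix Pool.Agent.Helper69.RK Pool.Agent.Helper31.EC Pool.Agent.Helper31.EC.Sp
open Pool.Agent.Helper40.EL Pool.Agent.Helper89.LX Pool.Agent.Helper84.MT
open Pool.Agent.Helper49.MD Pool.Agent.Helper36.AM Pool.Agent.Helper37.DK2
open Pool.Agent.Helper29.MX Pool.Agent.Helper8.CPY
open Pool.Agent.Helper18.PRM (vcrd scrd)
open Pool.Agent.Helper7.RD (RW)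

noncomputable section

/-- the class with a bound -/
def CN (M k m : ℕ) : MCl M := fun S _ _ s => ∃ R : Rsl S, (NCR k (1 / ((m : ℝ) + 1)) s R ∧ NPt s R) ∧ Trp s R

variable {S T : Sp} {M k m g r : ℕ}

theorem hm_pos (m : ℕ) : (0 : ℝ) < 1 / ((m : ℝ) + 1) := by positivity

theorem cn_le {s : MSys S M (lin g) (Fin r)} (H : CN M k m S g r s) : DKU M k S g r s := by
  obtain ⟨R, ⟨h1, h2⟩, -⟩ := H
  exact ⟨m, NCR_vis.mp (h1.cnd (hm_pos m) h2)⟩

theorem cn_im {s : MSys S M (lin g) (Fin r)} (H : CN M k m S g r s) (p : Pj T S) (E : ∀ k, (T.F k).Ω → Prop)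
    (hE : 0 < ul (T.pr E)) : CN M k m (Sp.im p E) g r (s.im p E hE) := by
  obtain ⟨R, ⟨h1, h2⟩, h3⟩ := H
  exact ⟨R, ⟨h1.im (hm_pos m) p E hE, npt_im h2 p E hE⟩, trp_im h3 p E hE⟩

theorem cn_pull {s : MSys S M (lin g) (Fin r)} (H : CN M k m S g r s) (p : Pj T S) :
    CN M k m T g r (s.pull p) := by
  obtain ⟨R, ⟨h1, h2⟩, h3⟩ := H
  exact ⟨rpull p R, ⟨h1.pull (hm_pos m) p, npt_pull h2 p⟩, trp_pull h3 p⟩

theorem cn_trn {s : MSys S M (lin g) (Fin r)} (H : CN M k m S g r s) (e : ℝ) (he : 0 < e) (h1 : e ≤ 1) :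
    CN M k m (S.chg S.tr e he) g r (s.trn e he h1) := by
  obtain ⟨R, ⟨h2, h3⟩, h4⟩ := H
  exact ⟨fun k => R k, ⟨h2.trn e he h1, npt_trn h3 e he h1⟩, trp_trn h4 he h1⟩

/-- windows of leaves with the same finite data -/
theorem win_of_lob {E E' : ℕ → ℕ} {Q Q' : S.VV M} {l : Leaf S Q E} {l' : Leaf S Q' E'} {n : ℕ}
    (h : lob l' n = lob l n) (c : ℝ) : l'.win c n = l.win c n := by
  have h1 : ∀ x : FLf (S.F n).Ω M, fc (F := S.F n) (x.La ⊓ Setoid.ker fun ω i => ⌊x.Y ω i / S.dl c n⌋) =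
      fc (F := S.F n) (x.La ⊓ Setoid.ker fun ω i => ⌊x.Y ω i / S.dl c n⌋) := fun _ => rfl
  have e1 : l'.win c n = fc (F := S.F n) ((lob l' n).La ⊓ Setoid.ker fun ω i => ⌊(lob l' n).Y ω i / S.dl c n⌋) := rfl
  have e2 : l.win c n = fc (F := S.F n) ((lob l n).La ⊓ Setoid.ker fun ω i => ⌊(lob l n).Y ω i / S.dl c n⌋) := rfl
  rw [e1, e2, h]

theorem PLe_ev {A B : Part S} (h : ∀ᶠ n in UF, A n = B n) : PLe A B := by
  refine Tendsto.congr' ?_ (PLe.refl (S := S) B)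
  filter_upwards [h] with n hn
  rw [hn]

theorem cn_pnt {s s' : MSys S M (lin g) (Fin r)} (H : CN M k m S g r s) (h : Nrq s s') : CN M k m S g r s' := by
  obtain ⟨R, ⟨h2, h3⟩, h4⟩ := H
  refine ⟨R, ⟨h2.more id h.1, npt_nrq h3 h⟩, trp_of h4 id fun i => ?_⟩
  refine PLe_ev ?_
  filter_upwards [h.1 i] with n hn
  exact win_of_lob hn 1

theorem cn_add {s : MSys S M (lin g) (Fin r)} (H : CN M k m S g r s) (p : Pj T S) {g' r' : ℕ}
    (hg : ∀ D, lin g D ≤ lin g' D) (L : Fin r' → Leaf T (p.vv s.Q) (lin g')) (f : Fin r → Fin r')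
    (hL : ∀ i, L (f i) = ((s.lf i).pull p).monoE hg) : CN M k m T g' r' ⟨p.vv s.Q, L⟩ := by
  obtain ⟨R, ⟨h2, h3⟩, h4⟩ := H
  refine ⟨rpull p R, ⟨(h2.pull (hm_pos m) p).more f fun i => Eventually.of_forall fun n => ?_, ?_⟩,
    trp_add h4 p hg L f hL⟩
  · show lob (L (f i)) n = lob ((s.lf i).pull p) n
    rw [hL i]
    rfl
  · exact npt_pull h3 p

theorem mtan_ovl (s : MSys S M (lin g) (Fin r)) (l : Lab S) (hl : ∀ i, Nul S fun k => (l k).leak ((s.lf i).win 0 k))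
    (n : ℕ) (w : (l n).T.Ω) (a : Σ i, Fin ((ob s n).lf i).e) :
    mtan (ob (Pool.Agent.Helper24.PR.ovl s l hl) n) w a = mtan (ob s n) ((l n).p.π w) a := rfl

theorem nul_rover (l : Lab S) {e : ℝ} (he : 0 < e) (R : Rsl S) :
    Nul S fun n => h (fc (rover l e he R n) : FL ((l n).ovr e he)) ((l n).up e he (fc (R n))) := by
  have h1 : ∀ n, h (fc (rover l e he R n) : FL ((l n).ovr e he)) ((l n).up e he (fc (R n))) = 0 := fun n => h_self _
  refine (tendsto_const_nhds : Tendsto (fun _ : ℕ => (0 : ℝ)) UF (𝓝 0)).congr fun n => ?_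
  show 0 = h (fc (rover l e he R n) : FL ((l n).ovr e he)) ((l n).up e he (fc (R n))) / (S.F n).n
  rw [h1 n, zero_div]

theorem cn_bas {s : MSys S M (lin g) (Fin r)} (H : CN M k m S g r s) (l : Lab S)
    (hl : ∀ i, Nul S fun k => (l k).leak ((s.lf i).win 0 k)) :
    CN M k m (l.ovr 1 one_pos) g r (Pool.Agent.Helper24.PR.ovl s l hl) := by
  obtain ⟨R, ⟨h2, h3⟩, h4⟩ := H
  refine ⟨rover l 1 one_pos R, ⟨?_, npt_bas h3 l hl⟩, trp_bas h4 l hl⟩
  refine h2.over (hm_pos m) l one_pos le_rfl (trp_leak h4 zero_le_one hl) (R' := rover l 1 one_pos R)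
    (nul_rover l one_pos R) (fun _ _ => 1) (Eventually.of_forall fun _ _ _ _ _ _ _ _ _ => rfl) (S.Sub_const zero_le_one) ?_ ?_
  · refine Eventually.of_forall fun n w _ b => ?_
    rw [Matrix.vecMul_one, one_pow, one_mul]
  · refine (Typ_true (S := l.sp)).mono (Eventually.of_forall fun n w _ _ a => ⟨a, fun j => ?_⟩)
    rw [Matrix.one_mulVec]
    show |mtan (ob s n) ((l n).p.π w) a j - mtan (ob s n) ((l n).p.π w) a j| ≤ _
    rw [sub_self, abs_zero, one_mul]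
    exact (S.dl_pos _ n).le

/-! ### row zooms -/

/-- the Jacobian of flag rows is invertible -/
theorem jac_flag {M : ℕ} {P : Fin M → MvPolynomial (Fin M) ℝ} (tri : ∀ j, ∀ i ∈ (P j).vars, i ≤ j) {x : Fin M → ℝ}
    (h0 : ∀ j, MvPolynomial.eval x (MvPolynomial.pderiv j (P j)) ≠ 0) :
    Pool.Agent.Helper7.GZ.jac P x * (Pool.Agent.Helper7.GZ.jac P x)⁻¹ = 1 := by
  refine Matrix.mul_nonsing_inv _ ?_
  have h1 : (Pool.Agent.Helper7.GZ.jac P x).det = ∏ j, MvPolynomial.eval x (MvPolynomial.pderiv j (P j)) := by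
    rw [Matrix.det_of_isLowerTriangular]
    · rfl
    · intro j i hji
      have h1 : j < i := OrderDual.toDual_lt_toDual.mp hji
      show MvPolynomial.eval x (MvPolynomial.pderiv i (P j)) = 0
      rw [MvPolynomial.pderiv_eq_zero_of_notMem_vars fun hi => absurd (tri j i hi) (not_le.mpr h1), map_zero]
  rw [h1]
  exact (Finset.prod_ne_zero_iff.mpr fun j _ => h0 j).isUnit

theorem jinv_of {E : ℕ → ℕ} {ι : Type} [Finite ι] {s : MSys S M E ι} {R : Rsl S} (hR : Pt s R) {z : RW s M}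
    {lam : Fin M → ℝ} (hK : KLb s R z.Z.c z.Z.l) (hF : Flg z lam) (hO : OptLam z R lam) : JInv z := by
  obtain ⟨K, hK1, h1⟩ := Pool.Agent.Helper37.OKD.jac_inv_le hR hK hF hO
  refine ⟨K, hK1, ?_⟩
  refine Typ.mono (S := z.Z.l.sp) (Typ.and (S := z.Z.l.sp) (hF.ex 1 one_pos) h1) (Eventually.of_forall fun n w _ hh =>
    ⟨?_, hh.2⟩)
  refine jac_flag (hF.tri n w) fun j h2 => ?_
  have h3 := (hh.1 j).1
  rw [h2, abs_zero] at h3
  have : (0 : ℝ) < 2 ^ ((lam j - 1) * (S.F n).n) := by positivity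
  linarith

theorem cn_rows {s : MSys S M (lin g) (Fin r)} (H : CN M k m S g r s) {R : Rsl S} (hR : Pt s R) {z : RW s M}
    {lam : Fin M → ℝ} (hK : KLb s R z.Z.c z.Z.l) (hF : Flg z lam) (hO : OptLam z R lam) :
    CN M k m z.Z.sp z.κ r z.sys := by
  obtain ⟨R₀, ⟨h2, h3⟩, h4⟩ := H
  have hc : z.Z.c ≤ 1 := by
    have := z.Z.h1
    have := z.Z.hu
    linarith
  refine ⟨rover z.Z.l z.Z.u z.Z.hu R₀, ⟨?_, npt_rw h3 z⟩, trp_rw h4 z⟩
  exact h2.rows (hm_pos m) h3 z (trp_leak h4 hc z.dm) (jinv_of hR hK hF hO)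
    (fun L hL => Pool.Agent.Helper37.OKD.jac_var hR hK hF hO L hL) (fun i => Pool.Agent.Helper3.RT.rw_tan z i)
    (nul_rover z.Z.l z.Z.hu R₀)

/-! ### zooms in frames -/

/-- the degrees of the frames with exponents `w j * c` -/
theorem frm_deg {Q : S.VV M} {l : Lab S} {w : Fin M → ℝ} (hw : ∀ j, 1 ≤ w j) {c : ℝ} (hc : 0 ≤ c)
    (f : Frm Q l fun j => w j * c) : ∀ n ω j, (f.P n ω j).totalDegree ≤ ∑ j, ⌈w j⌉₊ := by
  intro n ω j
  have h0 : ⌈w j⌉₊ ≤ ∑ j, ⌈w j⌉₊ := Finset.single_le_sum (f := fun j => ⌈w j⌉₊) (fun _ _ => Nat.zero_le _) (Finset.mem_univ j)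
  refine le_trans ?_ h0
  refine Finset.sup_le fun a ha => ?_
  by_cases h1 : a = 0
  · rw [h1]
    exact Nat.zero_le _
  have h2 := f.red n ω j a ha h1
  rcases hc.eq_or_lt with hc | hc
  · exfalso
    rw [← hc] at h2
    simp at h2
  · have h3 : (a.sum fun _ e => e) = ∑ i, a i := Finsupp.sum_fintype _ _ fun _ => rfl
    rw [h3]
    have h4 : ((∑ i, a i : ℕ) : ℝ) * c < w j * c := by
      refine lt_of_le_of_lt ?_ h2
      rw [Nat.cast_sum, Finset.sum_mul]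
      refine Finset.sum_le_sum fun i _ => ?_
      have h5 : (a i : ℝ) * c ≤ (a i : ℝ) * (w i * c) :=
        mul_le_mul_of_nonneg_left (le_mul_of_one_le_left hc.le (hw i)) (Nat.cast_nonneg _)
      exact h5
    have h5 : ((∑ i, a i : ℕ) : ℝ) < w j := lt_of_mul_lt_mul_right h4 hc.le
    have h6 : ((∑ i, a i : ℕ) : ℝ) ≤ (⌈w j⌉₊ : ℝ) := h5.le.trans (Nat.le_ceil _)
    exact_mod_cast h6

theorem cn_zoom (hM : 0 < M) {s : MSys S M (lin g) (Fin r)} (H : CN M k m S g r s) {w : Fin M → ℝ} (hw : ∀ j, 1 ≤ w j)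
    {c e : ℝ} (he : 0 < e) (hc : 0 ≤ c) (hce : ∀ j, w j * c + e ≤ 1) {l : Lab S} (f : Frm s.Q l fun j => w j * c)
    (hl : TLb s c l) {g' : ℕ} {t : MSys (l.ovr e he) M (lin g') (Fin r)} (hG : Gzf s l f c e he t) :
    CN M k m (l.ovr e he) g' r t := by
  obtain ⟨R₀, ⟨h2, h3⟩, h4⟩ := H
  have hcw : ∀ j, c ≤ w j * c := fun j => le_mul_of_one_le_left hc (hw j)
  have hce' : c + e ≤ 1 := by
    have h5 := hce ⟨0, hM⟩
    have h6 := hcw ⟨0, hM⟩
    linarith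
  have hLa : ∀ j, 0 ≤ w j * c := fun j => hc.trans (hcw j)
  refine ⟨rover l e he R₀, ⟨?_, npt_gz h3 f he hLa hce (frm_deg hw hc f) hG.pt⟩, trp_gz h4 hl hG.toGz hce'⟩
  exact h2.zoom (hm_pos m) h3 l (trp_leak h4 (by linarith) hl) f hc he (by linarith) hcw hce (frm_deg hw hc f) hG.lfr
    (nul_rover l he R₀)

/-! ### small changes of the charts, permutations -/

theorem win_tay {E E' : ℕ → ℕ} {ι : Type} {s : MSys S M E ι} {s' : MSys S M E' ι} (h : Tay s s') (c : ℝ) (i : ι) :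
    (s'.lf i).win c = (s.lf i).win c := by
  obtain ⟨h1, κ, G, G', K, -, h2, h3, -⟩ := h.2 i
  funext n
  show fc ((s'.lf i).La n ⊓ Setoid.ker ((s'.lf i).Y.cellv c n)) = fc ((s.lf i).La n ⊓ Setoid.ker ((s.lf i).Y.cellv c n))
  rw [h2 n]
  congr 2
  ext ω ω'
  show (s'.lf i).Y.cellv c n ω = (s'.lf i).Y.cellv c n ω' ↔ (s.lf i).Y.cellv c n ω = (s.lf i).Y.cellv c n ω'
  have h4 : ∀ ω m, (s'.lf i).Y.cellv c n ω (Fin.cast h1.symm m) = (s.lf i).Y.cellv c n ω m := fun ω m => by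
    show ⌊(s'.lf i).Y.v n ω (Fin.cast h1.symm m) / S.dl c n⌋ = ⌊(s.lf i).Y.v n ω m / S.dl c n⌋
    rw [h3]
  constructor
  · intro h5
    funext m
    rw [← h4, ← h4, h5]
  · intro h5
    funext m
    have h6 := congrFun h5 (Fin.cast h1 m)
    rw [← h4, ← h4] at h6
    exact h6

theorem cn_tay {s : MSys S M (lin g) (Fin r)} (H : CN M k m S g r s) {g' : ℕ} {s' : MSys S M (lin g') (Fin r)}
    (h : Tay s s') : CN M k m S g' r s' := by
  obtain ⟨R₀, ⟨h2, h3⟩, h4⟩ := H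
  refine ⟨R₀, ⟨?_, ?_⟩, trp_of h4 id fun i => ?_⟩
  · exact Pool.Agent.Helper37.OKD.nc_tay h (hm_pos m) R₀ h2
  · unfold NPt
    rw [h.1]
    exact h3
  · show PLe ((s'.lf i).win 1) ((s.lf i).win 1)
    rw [win_tay h]
    exact PLe.refl _

theorem cn_prm {s : MSys S M (lin g) (Fin r)} (H : CN M k m S g r s) (σ : Equiv.Perm (Fin M)) :
    CN M k m S g r (scrd σ s) := by
  obtain ⟨R₀, ⟨h2, h3⟩, h4⟩ := H
  refine ⟨R₀, ⟨?_, ?_⟩, trp_of h4 id fun i => PLe.refl _⟩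
  · exact h2.perm σ fun i n => rfl
  · refine npt_of (s := s) h3 (PLe.refl _) (PLe_of_le fun n => fc_le fun ω ω' _ _ _ hc => ?_)
    show (vcrd σ s.Q).cellv 1 n ω = (vcrd σ s.Q).cellv 1 n ω'
    have hc' : s.Q.cellv 1 n ω = s.Q.cellv 1 n ω' := hc
    funext j
    exact congrFun hc' (σ j)

end

end Pool.Agent.Helper59.OKD
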