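import Pool.Agent.Helper59.OKD.Np
import Pool.Agent.Helper59.OKD.Zm

/-! The cells of the point of a zoom in a frame. -/

set_option autoImplicit false

namespace Pool.Agent.Helper59.OKD

open Finset Filter Topology Matrix Pool.Agent.Helper69.RK Pool.Agent.Helper31.EC Pool.Agent.Helper31.EC.Sp
open Pool.Agent.Helper40.EL Pool.Agent.Helper89.LX Pool.Agent.Helper3.LF Pool.Agent.Helper84.MT
open Pool.Agent.Helper49.MD Pool.Agent.Helper36.AM Pool.Agent.Helper37.DK2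
open Pool.Agent.Helper29.MX (Rsl Trp TLb rpull rover Nrq vis)

noncomputable section

variable {S T : Sp} {M : ℕ} {E E' : ℕ → ℕ} {ι κ : Type}

theorem sub_to_ovr (l : Lab S) {e : ℝ} (he : 0 < e) {K : ℕ → ℝ} (h : S.Sub K) : (l.ovr e he).Sub K := by
  refine ⟨h.1, ?_⟩
  have h2 := h.2.const_mul e⁻¹
  rw [mul_zero] at h2
  refine h2.congr fun k => ?_
  rw [l.n_over e he k]
  have := (S.F k).pos
  field_simp

/-- the coordinates in a frame are known to the cell of the point -/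
theorem pcd_gz {s : MSys S M E ι} {l : Lab S} {La : Fin M → ℝ} (f : Frm s.Q l La) {e : ℝ}
    (he : 0 < e) (hLa : ∀ j, 0 ≤ La j) (hLe : ∀ j, La j + e ≤ 1) {κ₀ : ℕ}
    (hκ : ∀ n ω j, (f.P n ω j).totalDegree ≤ κ₀) {t : MSys (l.ovr e he) M E' κ}
    (ht : ∃ K : ℕ → ℝ, S.Sub K ∧ ∀ᶠ k in UF, ∀ ω : (l.sp.F k).Ω, (l.sp.F k).μ ω ≠ 0 → ∀ j,
      |t.Q.v k ω j - f.X.v k ω j| ≤ K k * S.dl e k) : PLe (pcd t.Q) (l.up e he (pcd s.Q)) := by
  obtain ⟨Kc, hKc, c1⟩ := f.bd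
  obtain ⟨Kp, hKp, c2⟩ := f.pt
  obtain ⟨Kx, hKx', c3⟩ := f.X.bd
  obtain ⟨Kt, hKt, c4⟩ := ht
  have hKx := sub_sp' l hKx'
  set V : ℕ → ℝ := fun n => 1 + Kx n with hV
  have sV : S.Sub V := (S.Sub_const zero_le_one).add hKx
  set A₁ : ℕ → ℝ := fun n => (lc M κ₀ (Kc n) (V n) + 1) ^ M * (2 * Kp n + 1) with hA₁
  have s2 : S.Sub fun _ => (2 : ℝ) := S.Sub_const (by norm_num)
  have sA₁ : S.Sub A₁ := (Sub_pow' ((sub_lc κ₀ hKc sV).add (S.Sub_const zero_le_one)) M).mul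
    ((s2.mul hKp).add (S.Sub_const zero_le_one))
  have sK : S.Sub fun n => A₁ n + 2 * Kt n := sA₁.add (s2.mul hKt)
  have h1 : PLe (S := l.ovr e he) (fun k => fc (Setoid.ker (t.Q.cellv 1 k)))
      (fun k => fc (F := (l.ovr e he).F k) (Setoid.comap (l k).p.π (Setoid.ker (s.Q.cellv 1 k)) :
        Setoid (l k).T.Ω)) := by
    refine PLe_cell (S := l.ovr e he) t.Q 1 _ (fun n => A₁ n + 2 * Kt n) (sub_to_ovr l he sK) ?_
    filter_upwards [c1, c2, c3, c4, f.fn, hKc.1, hKp.1, hKx.1] with n a1 a2 a3 a4 a5 a6 a7 a8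
    intro (w : (l n).T.Ω) (w' : (l n).T.Ω) hw hw' hz hc j
    have hdl : (l.ovr e he).dl 1 n = S.dl e n := by
      show (2 : ℝ) ^ (-(1 * ((l.ovr e he).F n).n)) = 2 ^ (-(e * (S.F n).n))
      rw [l.n_over e he n, one_mul]
    rw [hdl]
    have g1 := a4 w hw j
    have g2 := a4 w' hw' j
    have q1 : f.P n w = f.P n w' := a5 w w' hw hw' hz.2 hz.1
    have hcell : ∀ j, |s.Q.v n ((l n).p.π w) j - s.Q.v n ((l n).p.π w') j| ≤ S.dl 1 n :=
      fun j => s.Q.cellv_close 1 n _ _ hc j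
    have hV1 : 1 ≤ V n := by
      show 1 ≤ 1 + Kx n
      linarith
    have hd : ∀ (j : Fin M), 0 < S.dl (La j) n := fun j => S.dl_pos _ n
    have hd1 : ∀ (j : Fin M), S.dl (La j) n ≤ 1 := fun j => by
      rw [← S.dl_zero n]
      exact S.dl_anti (hLa j) n
    have hU : ∀ w : (l n).T.Ω, (l n).T.μ w ≠ 0 → ∀ i, |S.dl (La i) n * f.X.v n w i| ≤ V n := by
      intro w hw i
      have h3 : |f.X.v n w i| ≤ Kx n := a3 w hw i
      rw [abs_mul, abs_of_pos (hd i)]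
      calc S.dl (La i) n * |f.X.v n w i| ≤ 1 * Kx n := mul_le_mul (hd1 i) h3 (abs_nonneg _) zero_le_one
        _ ≤ V n := by
          show 1 * Kx n ≤ 1 + Kx n
          linarith
    have hv : ∀ j, |(MvPolynomial.eval (fun i => S.dl (La i) n * f.X.v n w i) (f.P n w j) +
        S.dl (La j) n * f.X.v n w j) - (MvPolynomial.eval (fun i => S.dl (La i) n * f.X.v n w' i) (f.P n w j) +
          S.dl (La j) n * f.X.v n w' j)| ≤ (2 * Kp n + 1) * S.dl 1 n := by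
      intro j
      have g3 : |s.Q.v n ((l n).p.π w) j - (MvPolynomial.eval (fun i => S.dl (La i) n * f.X.v n w i) (f.P n w j) +
        S.dl (La j) n * f.X.v n w j)| ≤ Kp n * S.dl 1 n := a2 w hw j
      have g4 : |s.Q.v n ((l n).p.π w') j - (MvPolynomial.eval (fun i => S.dl (La i) n * f.X.v n w' i) (f.P n w j) +
        S.dl (La j) n * f.X.v n w' j)| ≤ Kp n * S.dl 1 n := by
        rw [q1]
        exact a2 w' hw' j
      have g5 := hcell j
      rw [abs_le] at g3 g4 g5 ⊢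
      constructor
      · nlinarith [g3.1, g3.2, g4.1, g4.2, g5.1, g5.2]
      · nlinarith [g3.1, g3.2, g4.1, g4.2, g5.1, g5.2]
    have hbc := box_close (P := f.P n w) (f.tri n w) (D := κ₀) (fun j => hκ n w j) a6 (fun j a => a1 w hw j a) hV1
      (by have := S.dl_pos 1 n; positivity) (U := fun i => S.dl (La i) n * f.X.v n w i)
      (U' := fun i => S.dl (La i) n * f.X.v n w' i) (hU w hw) (hU w' hw') hv j
    have e1 : S.dl (La j) n * f.X.v n w j - S.dl (La j) n * f.X.v n w' j =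
      S.dl (La j) n * (f.X.v n w j - f.X.v n w' j) := by ring
    have hbc2 : S.dl (La j) n * |f.X.v n w j - f.X.v n w' j| ≤ A₁ n * S.dl 1 n := by
      have h5 : |S.dl (La j) n * f.X.v n w j - S.dl (La j) n * f.X.v n w' j| ≤
        (lc M κ₀ (Kc n) (V n) + 1) ^ M * ((2 * Kp n + 1) * S.dl 1 n) := hbc
      rw [e1, abs_mul, abs_of_pos (hd j)] at h5
      refine h5.trans (le_of_eq ?_)
      show _ = (lc M κ₀ (Kc n) (V n) + 1) ^ M * (2 * Kp n + 1) * S.dl 1 n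
      ring
    have hA0 : 0 ≤ A₁ n := by
      have := lc_nonneg (M := M) (D := κ₀) a6 hV1
      show 0 ≤ (lc M κ₀ (Kc n) (V n) + 1) ^ M * (2 * Kp n + 1)
      positivity
    have h6 : S.dl 1 n ≤ S.dl (La j) n * S.dl e n := by
      rw [← S.dl_add]
      exact S.dl_anti (hLe j) n
    have h7 : |f.X.v n w j - f.X.v n w' j| ≤ A₁ n * S.dl e n := by
      have h8 : S.dl (La j) n * |f.X.v n w j - f.X.v n w' j| ≤ S.dl (La j) n * (A₁ n * S.dl e n) := by
        refine hbc2.trans ((mul_le_mul_of_nonneg_left h6 hA0).trans (le_of_eq ?_))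
        ring
      exact le_of_mul_le_mul_left h8 (hd j)
    have e2 : t.Q.v n w j - t.Q.v n w' j = (t.Q.v n w j - f.X.v n w j) + (f.X.v n w j - f.X.v n w' j) -
      (t.Q.v n w' j - f.X.v n w' j) := by ring
    rw [e2]
    refine (abs_sub _ _).trans ?_
    have h9 := abs_add_le (t.Q.v n w j - f.X.v n w j) (f.X.v n w j - f.X.v n w' j)
    have h10 : (A₁ n + 2 * Kt n) * S.dl e n = A₁ n * S.dl e n + Kt n * S.dl e n + Kt n * S.dl e n := by ring
    rw [h10]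
    linarith
  exact h1

/-- zooms in frames -/
theorem npt_gz {s : MSys S M E ι} {R : Rsl S} (H : NPt s R) {l : Lab S} {La : Fin M → ℝ} (f : Frm s.Q l La) {e : ℝ}
    (he : 0 < e) (hLa : ∀ j, 0 ≤ La j) (hLe : ∀ j, La j + e ≤ 1) {κ₀ : ℕ}
    (hκ : ∀ n ω j, (f.P n ω j).totalDegree ≤ κ₀) {t : MSys (l.ovr e he) M E' κ}
    (ht : ∃ K : ℕ → ℝ, S.Sub K ∧ ∀ᶠ k in UF, ∀ ω : (l.sp.F k).Ω, (l.sp.F k).μ ω ≠ 0 → ∀ j,
      |t.Q.v k ω j - f.X.v k ω j| ≤ K k * S.dl e k) : NPt t (rover l e he R) := by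
  have h1 : PLe (l.up e he (pcd s.Q)) (l.up e he fun n => fc (R n)) := Lab.PLe_up l e he H
  have h2 := PLe.trans (S := l.ovr e he) (pcd_gz f he hLa hLe hκ ht) h1
  exact h2

end

end Pool.Agent.Helper59.OKD
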