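import Pool.Agent.Helper59.OKD.Nr
import Pool.Agent.Helper29.MX.St
import Pool.Agent.Helper38.NSL.Ni
import Pool.Agent.Helper36.AM.St
import Pool.Agent.Helper7.GZ.Sys
import Pool.Agent.Helper81.CPY.Inv

/-! THE CELLS OF LEVEL 1 OF THE POINT ARE FUNCTIONS OF THE RESOLUTION up to rate zero: `NPt s R`. -/

set_option autoImplicit false

namespace Pool.Agent.Helper59.OKD

open Finset Filter Topology Matrix Pool.Agent.Helper69.RK Pool.Agent.Helper31.EC Pool.Agent.Helper31.EC.Sp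
open Pool.Agent.Helper40.EL Pool.Agent.Helper89.LX Pool.Agent.Helper3.LF Pool.Agent.Helper84.MT
open Pool.Agent.Helper49.MD Pool.Agent.Helper36.AM Pool.Agent.Helper37.DK2
open Pool.Agent.Helper29.MX (Rsl Trp TLb rpull rover Nrq vis)
open Pool.Agent.Helper87.NSL (KnS)
open Pool.Agent.Helper7.RD (RW)

noncomputable section

variable {S T : Sp} {M : ℕ} {E E' : ℕ → ℕ} {ι κ : Type}

/-- null entropies on events of extensions (helper75) -/
theorem ple_im (p : Pj T S) (A : ∀ k, (T.F k).Ω → Prop) (hA : 0 < ul (T.pr A)) {x y : Part S} (hxy : PLe x y) :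
    PLe (x.im p A) (y.im p A) := by
  have hT : Nul T (fun k => h (x k) (y k)) := by
    unfold PLe at hxy
    unfold Nul at hxy ⊢
    exact hxy.congr fun k => by rw [p.hn k]
  have h1 : Nul T (fun k => h (x.im p A k) (y.im p A k)) := by
    refine Nul.div_pr hA hT (fun k => h_nonneg _ _) fun k => ?_
    have e1 : h (x.im p A k) (y.im p A k) = h ((T.F k).rmap (A k) ((p.fp k).map (x k)))
        ((T.F k).rmap (A k) ((p.fp k).map (y k))) := by
      rw [← FSp.imp_imap, ← FSp.imp_imap, FPj.h_map]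
      rfl
    rw [e1]
    have h2 := (T.F k).rmap_h_le (A k) ((p.fp k).map (x k)) ((p.fp k).map (y k))
    rw [(p.fp k).h_map] at h2
    have e2 : T.pr A k = (T.F k).pb (A k) := rfl
    rw [e2]
    linarith
  unfold PLe
  unfold Nul at h1 ⊢
  exact h1.congr fun k => by
    have : ((Sp.im p A).F k).n = (T.F k).n := (p.hn k).symm
    rw [this]

/-- helper91 -/
theorem pcd_trn' (Q : S.VV M) {e : ℝ} (h0 : 0 < e) : pcd (Q.chg S.tr e h0) =
    fun k => fc (F := (S.chg S.tr e h0).F k) (Setoid.ker (Q.cellv e k)) := by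
  funext k
  have e1 : (Q.chg S.tr e h0).cellv 1 k = Q.cellv e k :=
    (Pool.Agent.Helper52.SL.cellv_chg Q e h0 1 k).trans (by rw [mul_one])
  exact congrArg (fun f => fc (F := (S.chg S.tr e h0).F k) (Setoid.ker f)) e1

/-- the cells of level 1 of the point are functions of the resolution up to rate zero -/
def NPt (s : MSys S M E ι) (R : Rsl S) : Prop := PLe (pcd s.Q) (fun n => fc (R n))

theorem npt_vis (s : MSys S M E ι) : NPt s (vis s.Q) := PLe.refl _

theorem NPt.nul {s : MSys S M E ι} {R : Rsl S} (H : NPt s R) :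
    Nul S fun n => h (fc (Setoid.ker (s.Q.cellv 1 n)) : FL (S.F n)) (fc (R n)) := H

theorem npt_im {s : MSys S M E ι} {R : Rsl S} (H : NPt s R) (p : Pj T S) (A : ∀ k, (T.F k).Ω → Prop)
    (hA : 0 < ul (T.pr A)) : NPt (s.im p A hA) R := by
  have h1 : PLe ((pcd s.Q).im p A) (Part.im p A (fun n => fc (R n))) := ple_im p A hA H
  show PLe (pcd (s.Q.im p A)) (fun n => fc (F := (Sp.im p A).F n) (R n))
  rw [pcd_im]
  exact h1

theorem npt_pull {s : MSys S M E ι} {R : Rsl S} (H : NPt s R) (p : Pj T S) : NPt (s.pull p) (rpull p R) := by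
  show PLe (pcd (p.vv s.Q)) (fun n => fc (rpull p R n))
  rw [pcd_pull]
  exact Pool.Agent.Helper38.NSL.PLe_pull H p

/-- the point of the other system is close to the point -/
theorem npt_of {M' : ℕ} {s : MSys S M E ι} {s' : MSys S M' E' κ} {R R' : Rsl S} (H : NPt s R)
    (h1 : PLe (fun n => fc (R n)) (fun n => fc (R' n))) (h2 : PLe (pcd s'.Q) (pcd s.Q)) : NPt s' R' :=
  (PLe.trans h2 H).trans h1

theorem pcd_nrq {s s' : MSys S M E ι} (h : Nrq s s') : PLe (pcd s'.Q) (pcd s.Q) := by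
  obtain ⟨-, K, hK, h1⟩ := h
  refine PLe_cell s'.Q 1 _ (fun k => 1 + 2 * K k) ((S.Sub_const zero_le_one).add ((S.Sub_const (by norm_num)).mul hK)) ?_
  filter_upwards [h1] with k h1 ω ω' a b _ r j
  have h3 := h1 ω a j
  have h4 := h1 ω' b j
  have h5 : |s.Q.v k ω j - s.Q.v k ω' j| ≤ S.dl 1 k := abs_sub_le_of_floor_eq (S.dl_pos 1 k) (congrFun r j)
  have e1 : s'.Q.v k ω j - s'.Q.v k ω' j = (s'.Q.v k ω j - s.Q.v k ω j) + (s.Q.v k ω j - s.Q.v k ω' j) -
      (s'.Q.v k ω' j - s.Q.v k ω' j) := by ring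
  rw [e1]
  refine (abs_sub _ _).trans ?_
  have h6 := abs_add_le (s'.Q.v k ω j - s.Q.v k ω j) (s.Q.v k ω j - s.Q.v k ω' j)
  linarith

theorem npt_nrq {s s' : MSys S M E ι} {R : Rsl S} (H : NPt s R) (h : Nrq s s') : NPt s' R :=
  PLe.trans (pcd_nrq h) H

theorem npt_trn {s : MSys S M E ι} {R : Rsl S} (H : NPt s R) (e : ℝ) (he : 0 < e) (h1 : e ≤ 1) :
    NPt (s.trn e he h1) (fun k => R k) := by
  show PLe (S := S.chg S.tr e he) (pcd (s.Q.chg S.tr e he)) (fun n => fc (F := (S.chg S.tr e he).F n) (R n))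
  rw [pcd_trn']
  have h2 : PLe (fun k => fc (Setoid.ker (s.Q.cellv e k))) (pcd s.Q) :=
    PLe_cell_cell s.Q h1 _ fun k => le_refl _
  have h3 := PLe.trans h2 H
  have h4 : Nul S fun k => h (fc (Setoid.ker (s.Q.cellv e k)) : FL (S.F k)) (fc (R k)) := h3
  unfold PLe Nul
  have h5 : Tendsto (fun k => e⁻¹ * (h (fc (Setoid.ker (s.Q.cellv e k)) : FL (S.F k)) (fc (R k)) / (S.F k).n)) UF
      (𝓝 (e⁻¹ * 0)) := Tendsto.const_mul _ h4
  rw [mul_zero] at h5
  refine h5.congr fun k => ?_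
  have hn := (S.F k).pos
  have e1 : h (fc (F := (S.F k).chg ⊤ e he) (Setoid.ker (s.Q.cellv e k))) (fc (F := (S.F k).chg ⊤ e he) (R k)) =
      h (fc (Setoid.ker (s.Q.cellv e k)) : FL (S.F k)) (fc (R k)) := h_chg_top e he _ _
  show _ = h (fc (F := (S.F k).chg ⊤ e he) (Setoid.ker (s.Q.cellv e k))) (fc (F := (S.F k).chg ⊤ e he) (R k)) /
    (e * (S.F k).n)
  rw [e1]
  field_simp

/-- base changes -/
theorem npt_bas {s : MSys S M E ι} {R : Rsl S} (H : NPt s R) (l : Lab S)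
    (hl : ∀ i, Nul S fun k => (l k).leak ((s.lf i).win 0 k)) :
    NPt (Pool.Agent.Helper24.PR.ovl s l hl) (rover l 1 one_pos R) := by
  have h1 : PLe (l.up 1 one_pos (pcd s.Q)) (l.up 1 one_pos fun n => fc (R n)) := Lab.PLe_up l 1 one_pos H
  have h2 : pcd (Pool.Agent.Helper24.PR.ovl s l hl).Q = l.up 1 one_pos (pcd s.Q) :=
    Pool.Agent.Helper24.PR.pcd_ovl s.Q l
  unfold NPt
  rw [h2]
  exact h1

/-- row zooms -/
theorem npt_rw {M' : ℕ} {s : MSys S M E ι} {R : Rsl S} (H : NPt s R) (z : RW s M') :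
    NPt z.sys (rover z.Z.l z.Z.u z.Z.hu R) := by
  have h1 : PLe (z.upz (pcd s.Q)) (z.upz fun n => fc (R n)) := z.PLe_upz H
  have h2 : PLe (pcd z.sys.Q) (z.upz fun n => fc (R n)) := PLe.trans (S := z.Z.sp) z.pcd_up h1
  show PLe (S := z.Z.sp) (pcd z.sys.Q) (fun n => fc (F := z.Z.sp.F n) (rover z.Z.l z.Z.u z.Z.hu R n))
  exact h2

end

end Pool.Agent.Helper59.OKD
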