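import Mathlib

/-! ROW ZOOMS, elementary part: matrices which are close to an invertible matrix, relatively. -/

set_option autoImplicit false

namespace Pool.Agent.Helper59.OKD

open Finset Matrix

noncomputable section

variable {M : ℕ}

theorem vm_le {G : Matrix (Fin M) (Fin M) ℝ} {g : ℝ} (hG : ∀ i j, |G i j| ≤ g) (b : Fin M → ℝ) :
    (b ᵥ* G) ⬝ᵥ (b ᵥ* G) ≤ (M * g) ^ 2 * (b ⬝ᵥ b) := by
  have h3 : ∀ j, (b ᵥ* G) j * (b ᵥ* G) j ≤ (b ⬝ᵥ b) * (M * g ^ 2) := by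
    intro j
    have e1 : (b ᵥ* G) j = ∑ i, b i * G i j := rfl
    rw [← sq, e1]
    refine (Finset.sum_mul_sq_le_sq_mul_sq _ _ _).trans ?_
    have e2 : ∑ i, b i ^ 2 = b ⬝ᵥ b := Finset.sum_congr rfl fun i _ => sq _
    rw [e2]
    refine mul_le_mul_of_nonneg_left ?_ (Finset.sum_nonneg fun i _ => mul_self_nonneg (b i))
    refine (Finset.sum_le_card_nsmul _ _ (g ^ 2) fun i _ => ?_).trans (le_of_eq ?_)
    · rw [← sq_abs]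
      exact pow_le_pow_left₀ (abs_nonneg _) (hG i j) 2
    · rw [nsmul_eq_mul, Finset.card_univ, Fintype.card_fin]
  have h4 : (b ᵥ* G) ⬝ᵥ (b ᵥ* G) ≤ M * ((b ⬝ᵥ b) * (M * g ^ 2)) := by
    refine (Finset.sum_le_card_nsmul _ _ _ fun j _ => h3 j).trans (le_of_eq ?_)
    rw [nsmul_eq_mul, Finset.card_univ, Fintype.card_fin]
  refine h4.trans (le_of_eq ?_)
  ring

theorem mv_le {G : Matrix (Fin M) (Fin M) ℝ} {g : ℝ} (hG : ∀ i j, |G i j| ≤ g) (v : Fin M → ℝ) (j : Fin M) :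
    |(G *ᵥ v) j| ≤ g * ∑ i, |v i| := by
  have e1 : (G *ᵥ v) j = ∑ i, G j i * v i := rfl
  rw [e1, Finset.mul_sum]
  refine (Finset.abs_sum_le_sum_abs _ _).trans (Finset.sum_le_sum fun i _ => ?_)
  rw [abs_mul]
  exact mul_le_mul_of_nonneg_right (hG j i) (abs_nonneg _)

/-- THE TANGENTS under matrices which are relatively close to `J` -/
theorem row_step {J J₁ J₂ : Matrix (Fin M) (Fin M) ℝ} (hJ : J⁻¹ * J = 1) {ε : ℝ} (hε : 0 ≤ ε) (hε' : ε * (2 * M) ≤ 1)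
    (h1 : ∀ j r, |((J₁ - J) * J⁻¹) j r| ≤ ε) (h2 : ∀ j r, |((J₂ - J) * J⁻¹) j r| ≤ ε) {c : ℝ} {T T' : Fin M → ℝ}
    {err K₃ : ℝ} (hT : ∀ j, |c * (J₁ *ᵥ T) j - T' j| ≤ err) (hT' : ∀ j, |T' j| ≤ K₃) (j : Fin M) :
    |((c • J₂) *ᵥ T) j - T' j| ≤ err + 2 * ε * (2 * M * (K₃ + err)) := by
  set v : Fin M → ℝ := c • (J *ᵥ T) with hv
  have key : ∀ J' : Matrix (Fin M) (Fin M) ℝ, c • (J' *ᵥ T) = v + ((J' - J) * J⁻¹) *ᵥ v := by
    intro J'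
    rw [hv, Matrix.mulVec_smul, Matrix.mulVec_mulVec, Matrix.mul_assoc, hJ, Matrix.mul_one, Matrix.sub_mulVec,
      ← smul_add, add_sub_cancel]
  have h3 : ∀ j, |v j| ≤ K₃ + err + ε * ∑ i, |v i| := by
    intro j
    have e1 := congrFun (key J₁) j
    have e2 : c * (J₁ *ᵥ T) j = v j + (((J₁ - J) * J⁻¹) *ᵥ v) j := e1
    have h4 := mv_le h1 v j
    have h5 := hT j
    have h6 := hT' j
    rw [e2] at h5
    rw [abs_le] at h4 h5 h6 ⊢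
    constructor <;> linarith [h4.1, h4.2, h5.1, h5.2, h6.1, h6.2]
  have h4 : ∑ i, |v i| ≤ 2 * M * (K₃ + err) := by
    have h5 : ∑ i, |v i| ≤ M * (K₃ + err + ε * ∑ i, |v i|) := by
      refine (Finset.sum_le_card_nsmul _ _ _ fun i _ => h3 i).trans (le_of_eq ?_)
      rw [nsmul_eq_mul, Finset.card_univ, Fintype.card_fin]
    have h6 : 0 ≤ ∑ i, |v i| := Finset.sum_nonneg fun i _ => abs_nonneg _
    have h7 : M * (ε * ∑ i, |v i|) ≤ 1 / 2 * ∑ i, |v i| := by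
      have e1 : M * (ε * ∑ i, |v i|) = (ε * (2 * M)) * (1 / 2 * ∑ i, |v i|) := by ring
      rw [e1]
      calc ε * (2 * M) * (1 / 2 * ∑ i, |v i|) ≤ 1 * (1 / 2 * ∑ i, |v i|) :=
            mul_le_mul_of_nonneg_right hε' (by positivity)
        _ = _ := one_mul _
    nlinarith
  have e1 : ((c • J₂) *ᵥ T) j - T' j = (c * (J₁ *ᵥ T) j - T' j) - (((J₁ - J) * J⁻¹) *ᵥ v) j +
      (((J₂ - J) * J⁻¹) *ᵥ v) j := by
    have e2 : c * (J₁ *ᵥ T) j = v j + (((J₁ - J) * J⁻¹) *ᵥ v) j := congrFun (key J₁) j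
    have e3 : ((c • J₂) *ᵥ T) j = v j + (((J₂ - J) * J⁻¹) *ᵥ v) j := by
      rw [Matrix.smul_mulVec]
      exact congrFun (key J₂) j
    rw [e2, e3]
    ring
  rw [e1]
  have h5 := mv_le h1 v j
  have h6 := mv_le h2 v j
  have h7 := hT j
  have h8 : ε * ∑ i, |v i| ≤ ε * (2 * M * (K₃ + err)) := mul_le_mul_of_nonneg_left h4 hε
  rw [abs_le] at h5 h6 h7 ⊢
  constructor <;> linarith [h5.1, h5.2, h6.1, h6.2, h7.1, h7.2]

/-- matrices which are relatively close to `J` do not contract functionals -/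
theorem row_low {J J₂ : Matrix (Fin M) (Fin M) ℝ} (hJ : J * J⁻¹ = 1) (hJ1 : J⁻¹ * J = 1) {ε : ℝ} (hε : 0 ≤ ε)
    (hε' : ε * (2 * M) ≤ 1) (h2 : ∀ j r, |((J₂ - J) * J⁻¹) j r| ≤ ε) {c g : ℝ} (hc : 0 < c)
    (hg : ∀ r i, |J⁻¹ r i| ≤ g * c) (b : Fin M → ℝ) :
    b ⬝ᵥ b ≤ (2 * (M * g)) ^ 2 * ((b ᵥ* (c • J₂)) ⬝ᵥ (b ᵥ* (c • J₂))) := by
  set E := (J₂ - J) * J⁻¹ with hE
  set b' : Fin M → ℝ := b + b ᵥ* E with hb'
  have e1 : b ᵥ* (c • J₂) = b' ᵥ* (c • J) := by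
    have e2 : J₂ = J + E * J := by
      rw [hE, Matrix.mul_assoc, hJ1, Matrix.mul_one, add_sub_cancel]
    rw [hb', Matrix.vecMul_smul, Matrix.vecMul_smul, Matrix.add_vecMul, Matrix.vecMul_vecMul]
    conv_lhs => rw [e2]
    rw [Matrix.vecMul_add]
  have e2 : b' = (b' ᵥ* (c • J)) ᵥ* (c⁻¹ • J⁻¹) := by
    rw [Matrix.vecMul_vecMul, Matrix.smul_mul, Matrix.mul_smul, hJ, smul_smul, mul_inv_cancel₀ hc.ne', one_smul,
      Matrix.vecMul_one]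
  have h3 : b' ⬝ᵥ b' ≤ (M * g) ^ 2 * ((b' ᵥ* (c • J)) ⬝ᵥ (b' ᵥ* (c • J))) := by
    have h4 : ∀ i j, |(c⁻¹ • J⁻¹) i j| ≤ g := by
      intro i j
      show |c⁻¹ * J⁻¹ i j| ≤ g
      rw [abs_mul, abs_of_pos (inv_pos.mpr hc), inv_mul_le_iff₀ hc, mul_comm c]
      exact hg i j
    have h5 := vm_le h4 (b' ᵥ* (c • J))
    rw [← e2] at h5
    exact h5
  have h4 : b ⬝ᵥ b ≤ 4 * (b' ⬝ᵥ b') := by
    have h5 := vm_le h2 b
    have hbb : 0 ≤ b ⬝ᵥ b := Finset.sum_nonneg fun i _ => mul_self_nonneg (b i)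
    have h6 : (M * ε) ^ 2 * (b ⬝ᵥ b) ≤ 1 / 4 * (b ⬝ᵥ b) := by
      apply mul_le_mul_of_nonneg_right _ hbb
      have h7 : M * ε ≤ 1 / 2 := by linarith
      have h8 : 0 ≤ M * ε := by positivity
      nlinarith
    have h7 : b ⬝ᵥ b ≤ 2 * (b' ⬝ᵥ b') + 2 * ((b ᵥ* E) ⬝ᵥ (b ᵥ* E)) := by
      show ∑ i, b i * b i ≤ 2 * (∑ i, b' i * b' i) + 2 * ∑ i, (b ᵥ* E) i * (b ᵥ* E) i
      rw [Finset.mul_sum, Finset.mul_sum, ← Finset.sum_add_distrib]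
      refine Finset.sum_le_sum fun i _ => ?_
      have e3 : b' i = b i + (b ᵥ* E) i := rfl
      rw [e3]
      nlinarith [sq_nonneg (b i + 2 * (b ᵥ* E) i)]
    linarith
  rw [e1]
  calc b ⬝ᵥ b ≤ 4 * (b' ⬝ᵥ b') := h4
    _ ≤ 4 * ((M * g) ^ 2 * ((b' ᵥ* (c • J)) ⬝ᵥ (b' ᵥ* (c • J)))) := by linarith
    _ = _ := by ring

end

end Pool.Agent.Helper59.OKD
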